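import Mathlib
set_option autoImplicit false
set_option linter.all false
open Complex

namespace Pool.Agent.Helper172.WvN

set_option linter.unusedSimpArgs false
set_option linter.unusedSectionVars false

section alg
variable {B : Type*} [Ring B] [Algebra ℂ B]

/-- Relations between a block shift `R`, an inner shift `S`, their adjoints and the grading `G`. -/
structure Rel (R R' S S' G : B) : Prop where
  RR : R' * R = 1
  SS : S' * S = 1
  RS : S * R = R * S
  RS' : S' * R = R * S'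
  R'S : S * R' = R' * S
  R'S' : S' * R' = R' * S'
  GG : G * G = 1
  GR : R * G = -(G * R)
  GR' : R' * G = -(G * R')
  GS : S * G = G * S
  GS' : S' * G = G * S'
  GE : G * (R * R') = G + 1 - R * R'

noncomputable def cC (S S' : B) : B := (1/2 : ℂ) • (S + S')
noncomputable def cX (S S' : B) : B := (-I/2 : ℂ) • (S - S')
def cP (S S' : B) : B := 1 - S * S'
def cE (R R' : B) : B := 1 - R * R'
noncomputable def ca (S S' : B) : B := (1/2 : ℂ) • (1 + cX S S')
noncomputable def cb (S S' : B) : B := (1/2 : ℂ) • (1 - cX S S')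
noncomputable def cA (S S' G : B) : B := (1/2 : ℂ) • (1 - G * cX S S')
noncomputable def cq (S S' : B) : B := (1/4 : ℂ) • (1 - cX S S' * cX S S')
noncomputable def ch (R R' S S' G : B) : B := G * cC S S' + R * cA S S' G + cA S S' G * R'
/-- the reflection which is `-1` on the blocks `0, 1` and `1` on the others -/
def cu (R R' : B) : B := (R * R * R' * R') + (R * R * R' * R') - 1
/-- the bond between the blocks `1` and `2` -/
noncomputable def cB (R R' S S' : B) : B :=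
  cb S S' * (R * R * cE R R' * R') + cb S S' * (R * cE R R' * R' * R')
noncomputable def cT0 (R R' S S' G : B) : B := ch R R' S S' G + (I/2 : ℂ) • (1 - cE R R' - cE R R')
noncomputable def cT1 (R R' S S' G : B) : B :=
  ch R R' S S' G - cB R R' S S' + (I/2 : ℂ) • (1 - cE R R' - cE R R')
noncomputable def cT1' (R R' S S' G : B) : B :=
  ch R R' S S' G - cB R R' S S' - (I/2 : ℂ) • (1 - cE R R' - cE R R')

variable {R R' S S' G : B}

theorem Rel.RRa (r : Rel R R' S S' G) (t : B) : R' * (R * t) = t := by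
  rw [← mul_assoc, r.RR, one_mul]
theorem Rel.SSa (r : Rel R R' S S' G) (t : B) : S' * (S * t) = t := by
  rw [← mul_assoc, r.SS, one_mul]
theorem Rel.RSa (r : Rel R R' S S' G) (t : B) : S * (R * t) = R * (S * t) := by
  rw [← mul_assoc, r.RS, mul_assoc]
theorem Rel.RS'a (r : Rel R R' S S' G) (t : B) : S' * (R * t) = R * (S' * t) := by
  rw [← mul_assoc, r.RS', mul_assoc]
theorem Rel.R'Sa (r : Rel R R' S S' G) (t : B) : S * (R' * t) = R' * (S * t) := by
  rw [← mul_assoc, r.R'S, mul_assoc]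
theorem Rel.R'S'a (r : Rel R R' S S' G) (t : B) : S' * (R' * t) = R' * (S' * t) := by
  rw [← mul_assoc, r.R'S', mul_assoc]
theorem Rel.GGa (r : Rel R R' S S' G) (t : B) : G * (G * t) = t := by
  rw [← mul_assoc, r.GG, one_mul]
theorem Rel.GRa (r : Rel R R' S S' G) (t : B) : R * (G * t) = -(G * (R * t)) := by
  rw [← mul_assoc, r.GR, neg_mul, mul_assoc]
theorem Rel.GR'a (r : Rel R R' S S' G) (t : B) : R' * (G * t) = -(G * (R' * t)) := by
  rw [← mul_assoc, r.GR', neg_mul, mul_assoc]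
theorem Rel.GSa (r : Rel R R' S S' G) (t : B) : S * (G * t) = G * (S * t) := by
  rw [← mul_assoc, r.GS, mul_assoc]
theorem Rel.GS'a (r : Rel R R' S S' G) (t : B) : S' * (G * t) = G * (S' * t) := by
  rw [← mul_assoc, r.GS', mul_assoc]
theorem Rel.GEa (r : Rel R R' S S' G) (t : B) :
    G * (R * (R' * t)) = G * t + t - R * (R' * t) := by
  rw [← mul_assoc R, ← mul_assoc G, r.GE, sub_mul, add_mul, one_mul, mul_assoc]

theorem Rel.GE2 (r : Rel R R' S S' G) :
    G * (R * (R * R')) = G * R - R + R * (R * R') := by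
  have h1 : G * (R * (R * R')) = -(R * (G * (R * R'))) := by
    rw [← mul_assoc R G, r.GR, neg_mul, neg_neg, mul_assoc]
  rw [h1, r.GE, mul_sub, mul_add, mul_one, r.GR]
  abel
theorem Rel.GE2a (r : Rel R R' S S' G) (t : B) :
    G * (R * (R * (R' * t))) = G * (R * t) - R * t + R * (R * (R' * t)) := by
  have := congrArg (· * t) r.GE2
  simpa only [add_mul, sub_mul, mul_assoc] using this
theorem Rel.GE3 (r : Rel R R' S S' G) :
    G * (R * (R * (R * R'))) = G * (R * R) + R * R - R * (R * (R * R')) := by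
  have h1 : G * (R * (R * (R * R'))) = -(R * (G * (R * (R * R')))) := by
    rw [← mul_assoc R G, r.GR, neg_mul, neg_neg, mul_assoc]
  rw [h1, r.GE2, mul_add, mul_sub, ← mul_assoc R G, r.GR, neg_mul, mul_assoc]
  abel
theorem Rel.GE3a (r : Rel R R' S S' G) (t : B) :
    G * (R * (R * (R * (R' * t)))) = G * (R * (R * t)) + R * (R * t) - R * (R * (R * (R' * t))) := by
  have := congrArg (· * t) r.GE3
  simpa only [add_mul, sub_mul, mul_assoc] using this

theorem key (r : Rel R R' S S' G) :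
    ch R R' S S' G * ch R R' S S' G =
      1 - cP S S' - cE R R' * cb S S' * cb S S' * cE R R'
        + (1 + R' * R') * cq S S' * (1 + R * R)
        + (1/4 : ℂ) • ((1 + I • R') * cP S S' * (1 - I • R)) := by
  simp only [ch, cC, cX, cP, cE, cb, cA, cq]
  simp only [add_mul, mul_add, sub_mul, mul_sub, smul_mul_assoc, mul_smul_comm, mul_assoc, smul_add,
    smul_sub, neg_mul, mul_neg, smul_neg, one_mul, mul_one, smul_smul,
    r.RR, r.SS, r.RS, r.RS', r.R'S, r.R'S', r.GG, r.GR, r.GR', r.GS, r.GS', r.GE,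
    r.RRa, r.SSa, r.RSa, r.RS'a, r.R'Sa, r.R'S'a, r.GGa, r.GRa, r.GR'a, r.GSa, r.GS'a, r.GEa,
    r.GE2, r.GE2a, r.GE3, r.GE3a]
  match_scalars <;> (ring_nf; try simp only [I_sq]; try ring_nf)

theorem comm_E (r : Rel R R' S S' G) :
    ch R R' S S' G * cE R R' - cE R R' * ch R R' S S' G =
      R * ca S S' * cE R R' - cE R R' * ca S S' * R' := by
  simp only [ch, cC, cX, cP, cE, cb, cA, cq, ca]
  simp only [add_mul, mul_add, sub_mul, mul_sub, smul_mul_assoc, mul_smul_comm, mul_assoc, smul_add,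
    smul_sub, neg_mul, mul_neg, smul_neg, one_mul, mul_one, smul_smul,
    r.RR, r.SS, r.RS, r.RS', r.R'S, r.R'S', r.GG, r.GR, r.GR', r.GS, r.GS', r.GE,
    r.RRa, r.SSa, r.RSa, r.RS'a, r.R'Sa, r.R'S'a, r.GGa, r.GRa, r.GR'a, r.GSa, r.GS'a, r.GEa,
    r.GE2, r.GE2a, r.GE3, r.GE3a]
  match_scalars <;> (ring_nf; try simp only [I_sq]; try ring_nf)

theorem bond (r : Rel R R' S S' G) :
    cT0 R R' S S' G - cu R R' * cT0 R R' S S' G * cu R R' = cB R R' S S' + cB R R' S S' := by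
  simp only [ch, cC, cX, cP, cE, cb, cA, cq, ca, cu, cB, cT0]
  simp only [add_mul, mul_add, sub_mul, mul_sub, smul_mul_assoc, mul_smul_comm, mul_assoc, smul_add,
    smul_sub, neg_mul, mul_neg, smul_neg, one_mul, mul_one, smul_smul,
    r.RR, r.SS, r.RS, r.RS', r.R'S, r.R'S', r.GG, r.GR, r.GR', r.GS, r.GS', r.GE,
    r.RRa, r.SSa, r.RSa, r.RS'a, r.R'Sa, r.R'S'a, r.GGa, r.GRa, r.GR'a, r.GSa, r.GS'a, r.GEa,
    r.GE2, r.GE2a, r.GE3, r.GE3a]
  match_scalars <;> (ring_nf; try simp only [I_sq]; try ring_nf)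

theorem uu (r : Rel R R' S S' G) : cu R R' * cu R R' = 1 := by
  simp only [cu]
  simp only [add_mul, mul_add, sub_mul, mul_sub, smul_mul_assoc, mul_smul_comm, mul_assoc, smul_add,
    smul_sub, neg_mul, mul_neg, smul_neg, one_mul, mul_one, smul_smul,
    r.RR, r.SS, r.RS, r.RS', r.R'S, r.R'S', r.GG, r.GR, r.GR', r.GS, r.GS', r.GE,
    r.RRa, r.SSa, r.RSa, r.RS'a, r.R'Sa, r.R'S'a, r.GGa, r.GRa, r.GR'a, r.GSa, r.GS'a, r.GEa,
    r.GE2, r.GE2a, r.GE3, r.GE3a]
  match_scalars <;> (ring_nf; try simp only [I_sq]; try ring_nf)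

theorem uP (r : Rel R R' S S' G) : cP S S' * cu R R' = cu R R' * cP S S' := by
  simp only [cu, cP]
  simp only [add_mul, mul_add, sub_mul, mul_sub, smul_mul_assoc, mul_smul_comm, mul_assoc, smul_add,
    smul_sub, neg_mul, mul_neg, smul_neg, one_mul, mul_one, smul_smul,
    r.RR, r.SS, r.RS, r.RS', r.R'S, r.R'S', r.GG, r.GR, r.GR', r.GS, r.GS', r.GE,
    r.RRa, r.SSa, r.RSa, r.RS'a, r.R'Sa, r.R'S'a, r.GGa, r.GRa, r.GR'a, r.GSa, r.GS'a, r.GEa,
    r.GE2, r.GE2a, r.GE3, r.GE3a]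
  try match_scalars <;> (ring_nf; try simp only [I_sq]; try ring_nf)

theorem Eu (r : Rel R R' S S' G) : cE R R' * cu R R' = - cE R R' := by
  simp only [cu, cE]
  simp only [add_mul, mul_add, sub_mul, mul_sub, smul_mul_assoc, mul_smul_comm, mul_assoc, smul_add,
    smul_sub, neg_mul, mul_neg, smul_neg, one_mul, mul_one, smul_smul,
    r.RR, r.SS, r.RS, r.RS', r.R'S, r.R'S', r.GG, r.GR, r.GR', r.GS, r.GS', r.GE,
    r.RRa, r.SSa, r.RSa, r.RS'a, r.R'Sa, r.R'S'a, r.GGa, r.GRa, r.GR'a, r.GSa, r.GS'a, r.GEa,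
    r.GE2, r.GE2a, r.GE3, r.GE3a]
  try match_scalars <;> (ring_nf; try simp only [I_sq]; try ring_nf)

theorem ERu (r : Rel R R' S S' G) : cE R R' * R' * cu R R' = - (cE R R' * R') := by
  simp only [cu, cE]
  simp only [add_mul, mul_add, sub_mul, mul_sub, smul_mul_assoc, mul_smul_comm, mul_assoc, smul_add,
    smul_sub, neg_mul, mul_neg, smul_neg, one_mul, mul_one, smul_smul,
    r.RR, r.SS, r.RS, r.RS', r.R'S, r.R'S', r.GG, r.GR, r.GR', r.GS, r.GS', r.GE,
    r.RRa, r.SSa, r.RSa, r.RS'a, r.R'Sa, r.R'S'a, r.GGa, r.GRa, r.GR'a, r.GSa, r.GS'a, r.GEa,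
    r.GE2, r.GE2a, r.GE3, r.GE3a]
  try match_scalars <;> (ring_nf; try simp only [I_sq]; try ring_nf)

theorem kerT1 (r : Rel R R' S S' G) :
    cT1 R R' S S' G * ((1 + I • R) * cE R R') =
      (I • (1 : B) + R) * (cE R R' * ((I/4 : ℂ) • (S + (3:ℂ) • S'))) := by
  simp only [ch, cC, cX, cP, cE, cb, cA, cq, ca, cu, cB, cT0, cT1]
  simp only [add_mul, mul_add, sub_mul, mul_sub, smul_mul_assoc, mul_smul_comm, mul_assoc, smul_add,
    smul_sub, neg_mul, mul_neg, smul_neg, one_mul, mul_one, smul_smul,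
    r.RR, r.SS, r.RS, r.RS', r.R'S, r.R'S', r.GG, r.GR, r.GR', r.GS, r.GS', r.GE,
    r.RRa, r.SSa, r.RSa, r.RS'a, r.R'Sa, r.R'S'a, r.GGa, r.GRa, r.GR'a, r.GSa, r.GS'a, r.GEa,
    r.GE2, r.GE2a, r.GE3, r.GE3a]
  match_scalars <;> (ring_nf; try simp only [I_sq]; try ring_nf)

theorem inj1 (r : Rel R R' S S' G) :
    (cE R R' * R' + I • cE R R') * cT1' R R' S S' G =
      (-I/4 : ℂ) • (((3 : ℂ) • S + S') * (cE R R' + I • (cE R R' * R'))) := by
  simp only [ch, cC, cX, cP, cE, cb, cA, cq, ca, cu, cB, cT0, cT1']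
  simp only [add_mul, mul_add, sub_mul, mul_sub, smul_mul_assoc, mul_smul_comm, mul_assoc, smul_add,
    smul_sub, neg_mul, mul_neg, smul_neg, one_mul, mul_one, smul_smul,
    r.RR, r.SS, r.RS, r.RS', r.R'S, r.R'S', r.GG, r.GR, r.GR', r.GS, r.GS', r.GE,
    r.RRa, r.SSa, r.RSa, r.RS'a, r.R'Sa, r.R'S'a, r.GGa, r.GRa, r.GR'a, r.GSa, r.GS'a, r.GEa,
    r.GE2, r.GE2a, r.GE3, r.GE3a]
  match_scalars <;> (ring_nf; try simp only [I_sq]; try ring_nf)

theorem inj2 (r : Rel R R' S S' G) :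
    (cE R R' * R' - I • cE R R') * cT1' R R' S S' G =
      (ca S S' + I • cC S S' + (1/2 : ℂ) • 1) * (cE R R' - I • (cE R R' * R')) := by
  simp only [ch, cC, cX, cP, cE, cb, cA, cq, ca, cu, cB, cT0, cT1']
  simp only [add_mul, mul_add, sub_mul, mul_sub, smul_mul_assoc, mul_smul_comm, mul_assoc, smul_add,
    smul_sub, neg_mul, mul_neg, smul_neg, one_mul, mul_one, smul_smul,
    r.RR, r.SS, r.RS, r.RS', r.R'S, r.R'S', r.GG, r.GR, r.GR', r.GS, r.GS', r.GE,
    r.RRa, r.SSa, r.RSa, r.RS'a, r.R'Sa, r.R'S'a, r.GGa, r.GRa, r.GR'a, r.GSa, r.GS'a, r.GEa,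
    r.GE2, r.GE2a, r.GE3, r.GE3a]
  match_scalars <;> (ring_nf; try simp only [I_sq]; try ring_nf)

end alg
end Pool.Agent.Helper172.WvN
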