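import Mathlib
import Pool.Agent.Helper172.WvN.Alg
set_option autoImplicit false
set_option linter.all false
open Complex
open scoped InnerProductSpace

namespace Pool.Agent.Helper172.WvN

variable {ℋ : Type*} [NormedAddCommGroup ℋ] [InnerProductSpace ℂ ℋ] [CompleteSpace ℋ]

theorem star_inner_left (T : ℋ →L[ℂ] ℋ) (x y : ℋ) : ⟪star T x, y⟫_ℂ = ⟪x, T y⟫_ℂ := by
  rw [ContinuousLinearMap.star_eq_adjoint, ContinuousLinearMap.adjoint_inner_left]

theorem star_inner_right (T : ℋ →L[ℂ] ℋ) (x y : ℋ) : ⟪x, star T y⟫_ℂ = ⟪T x, y⟫_ℂ := by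
  rw [ContinuousLinearMap.star_eq_adjoint, ContinuousLinearMap.adjoint_inner_right]

theorem iso_norm {T : ℋ →L[ℂ] ℋ} (h : star T * T = 1) (x : ℋ) : ‖T x‖ = ‖x‖ := by
  have h1 : ‖T x‖ ^ 2 = ‖x‖ ^ 2 := by
    rw [← @inner_self_eq_norm_sq ℂ, ← @inner_self_eq_norm_sq ℂ, ← star_inner_right]
    have : star T (T x) = x := by
      have := congrArg (fun A : ℋ →L[ℂ] ℋ => A x) h
      simpa using this
    rw [this]
  exact (sq_eq_sq₀ (norm_nonneg _) (norm_nonneg _)).1 h1

theorem iso_norm_le {T : ℋ →L[ℂ] ℋ} (h : star T * T = 1) : ‖T‖ ≤ 1 :=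
  ContinuousLinearMap.opNorm_le_bound _ zero_le_one (fun x => by rw [iso_norm h, one_mul])

theorem iso_star_norm {T : ℋ →L[ℂ] ℋ} (h : star T * T = 1) (x : ℋ) : ‖star T x‖ ≤ ‖x‖ := by
  have h1 : ‖star T‖ ≤ 1 := by rw [norm_star]; exact iso_norm_le h
  calc ‖star T x‖ ≤ ‖star T‖ * ‖x‖ := (star T).le_opNorm x
    _ ≤ 1 * ‖x‖ := by gcongr
    _ = ‖x‖ := one_mul _

structure Sys (R S G : ℋ →L[ℂ] ℋ) (w : ℋ) : Prop where
  rel : Rel R (star R) S (star S) G
  Gs : star G = G
  hw : ‖w‖ = 1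
  EP : ∀ u, cE R (star R) (cP S (star S) u) = ⟪w, u⟫_ℂ • w

variable {R S G : ℋ →L[ℂ] ℋ} {w : ℋ}

theorem star_C : star (cC S (star S)) = cC S (star S) := by
  simp only [cC, star_smul, star_add, star_star]
  rw [add_comm]
  congr 1
  simp

theorem star_X : star (cX S (star S)) = cX S (star S) := by
  simp only [cX, star_smul, star_sub, star_star]
  rw [← neg_sub S (star S), smul_neg, ← neg_smul]
  congr 1
  simp
  ring

theorem star_P : star (cP S (star S)) = cP S (star S) := by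
  simp only [cP, star_sub, star_one, star_mul, star_star]

theorem star_E : star (cE R (star R)) = cE R (star R) := by
  simp only [cE, star_sub, star_one, star_mul, star_star]

theorem star_a : star (ca S (star S)) = ca S (star S) := by
  simp only [ca, star_smul, star_add, star_one, star_X]
  congr 1
  simp

theorem star_b : star (cb S (star S)) = cb S (star S) := by
  simp only [cb, star_smul, star_sub, star_one, star_X]
  congr 1
  simp

theorem GX (r : Rel R (star R) S (star S) G) : cX S (star S) * G = G * cX S (star S) := by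
  simp only [cX, smul_mul_assoc, mul_smul_comm, sub_mul, mul_sub, r.GS, r.GS']

theorem GC (r : Rel R (star R) S (star S) G) : cC S (star S) * G = G * cC S (star S) := by
  simp only [cC, smul_mul_assoc, mul_smul_comm, add_mul, mul_add, r.GS, r.GS']

theorem star_A (s : Sys R S G w) : star (cA S (star S) G) = cA S (star S) G := by
  simp only [cA, star_smul, star_sub, star_one, star_mul, star_X, s.Gs]
  rw [GX s.rel]
  congr 1
  simp

theorem star_h (s : Sys R S G w) : star (ch R (star R) S (star S) G) = ch R (star R) S (star S) G := by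
  simp only [ch, star_add, star_mul, star_star, star_A s, star_C, s.Gs]
  rw [GC s.rel]
  abel

theorem PP (r : Rel R (star R) S (star S) G) :
    cP S (star S) * cP S (star S) = cP S (star S) := by
  simp only [cP, mul_sub, sub_mul, mul_one, one_mul, mul_assoc, r.SSa]
  abel

theorem EE (r : Rel R (star R) S (star S) G) :
    cE R (star R) * cE R (star R) = cE R (star R) := by
  simp only [cE, mul_sub, sub_mul, mul_one, one_mul, mul_assoc, r.RRa]
  abel

theorem R'E (r : Rel R (star R) S (star S) G) : star R * cE R (star R) = 0 := by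
  simp only [cE, mul_sub, mul_one, r.RRa, sub_self]

theorem ER (r : Rel R (star R) S (star S) G) : cE R (star R) * R = 0 := by
  simp only [cE, sub_mul, one_mul, mul_assoc, r.RR, mul_one, sub_self]

theorem EX (r : Rel R (star R) S (star S) G) :
    cE R (star R) * cX S (star S) = cX S (star S) * cE R (star R) := by
  simp only [cE, cX, mul_sub, sub_mul, mul_one, one_mul, smul_mul_assoc, mul_smul_comm, mul_assoc,
    r.RS, r.RS', r.R'S, r.R'S', r.RSa, r.RS'a, r.R'Sa, r.R'S'a, smul_sub]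
  abel

theorem Ea (r : Rel R (star R) S (star S) G) :
    cE R (star R) * ca S (star S) = ca S (star S) * cE R (star R) := by
  simp only [ca, mul_add, add_mul, mul_one, one_mul, smul_mul_assoc, mul_smul_comm, EX r]

theorem Eb (r : Rel R (star R) S (star S) G) :
    cE R (star R) * cb S (star S) = cb S (star S) * cE R (star R) := by
  simp only [cb, mul_sub, sub_mul, mul_one, one_mul, smul_mul_assoc, mul_smul_comm, EX r]

theorem RX (r : Rel R (star R) S (star S) G) :
    R * cX S (star S) = cX S (star S) * R := by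
  simp only [cX, mul_sub, sub_mul, smul_mul_assoc, mul_smul_comm, r.RS, r.RS']

theorem Rb (r : Rel R (star R) S (star S) G) :
    R * cb S (star S) = cb S (star S) * R := by
  simp only [cb, mul_sub, sub_mul, mul_one, one_mul, smul_mul_assoc, mul_smul_comm, RX r]

theorem proj_norm {T : ℋ →L[ℂ] ℋ} (h1 : star T = T) (h2 : T * T = T) (x : ℋ) :
    (⟪x, T x⟫_ℂ).re = ‖T x‖ ^ 2 := by
  rw [← @inner_self_eq_norm_sq ℂ, ← star_inner_right, h1]
  have : T (T x) = T x := by
    have := congrArg (fun A : ℋ →L[ℂ] ℋ => A x) h2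
    simpa using this
  rw [this]; rfl

theorem X_norm (r : Rel R (star R) S (star S) G) (x : ℋ) : ‖cX S (star S) x‖ ≤ ‖x‖ := by
  simp only [cX, ContinuousLinearMap.smul_apply, ContinuousLinearMap.sub_apply]
  rw [norm_smul]
  have h1 : ‖(-I/2 : ℂ)‖ = 1/2 := by simp
  have h2 := iso_norm r.SS x
  have h3 := iso_star_norm r.SS x
  have h4 := norm_sub_le (S x) (star S x)
  rw [h1]
  linarith

/-- the basic numerical identities for `a`, `b` -/
theorem ab_norms (r : Rel R (star R) S (star S) G) (x : ℋ) :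
    ‖cb S (star S) x‖ ^ 2 = (‖x‖ ^ 2 - 2 * (⟪x, cX S (star S) x⟫_ℂ).re + ‖cX S (star S) x‖ ^ 2) / 4 ∧
    ‖ca S (star S) x‖ ^ 2 = (‖x‖ ^ 2 + 2 * (⟪x, cX S (star S) x⟫_ℂ).re + ‖cX S (star S) x‖ ^ 2) / 4 ∧
    (⟪x, ca S (star S) x⟫_ℂ).re = (‖x‖ ^ 2 + (⟪x, cX S (star S) x⟫_ℂ).re) / 2 := by
  refine ⟨?_, ?_, ?_⟩
  · simp only [cb, ContinuousLinearMap.smul_apply, ContinuousLinearMap.sub_apply,
      ContinuousLinearMap.one_apply]
    rw [norm_smul, mul_pow, @norm_sub_sq ℂ]
    simp
    ring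
  · simp only [ca, ContinuousLinearMap.smul_apply, ContinuousLinearMap.add_apply,
      ContinuousLinearMap.one_apply]
    rw [norm_smul, mul_pow, @norm_add_sq ℂ]
    simp
    ring
  · simp only [ca, ContinuousLinearMap.smul_apply, ContinuousLinearMap.add_apply,
      ContinuousLinearMap.one_apply]
    rw [inner_smul_right, inner_add_right, ← inner_self_eq_norm_sq (𝕜 := ℂ)]
    simp
    ring

theorem ab_ineq1 (r : Rel R (star R) S (star S) G) (x : ℋ) :
    ‖cb S (star S) x‖ ^ 2 + (⟪x, ca S (star S) x⟫_ℂ).re ≤ ‖x‖ ^ 2 := by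
  obtain ⟨h1, h2, h3⟩ := ab_norms r x
  have h4 := X_norm r x
  have h5 : ‖cX S (star S) x‖ ^ 2 ≤ ‖x‖ ^ 2 := by gcongr
  rw [h1, h3]
  linarith

theorem ab_ineq2 (r : Rel R (star R) S (star S) G) (x : ℋ) :
    ‖cb S (star S) x‖ ^ 2 + ‖ca S (star S) x‖ ^ 2 ≤ ‖x‖ ^ 2 := by
  obtain ⟨h1, h2, h3⟩ := ab_norms r x
  have h4 := X_norm r x
  have h5 : ‖cX S (star S) x‖ ^ 2 ≤ ‖x‖ ^ 2 := by gcongr
  rw [h1, h2]
  linarith

theorem a_nonneg (r : Rel R (star R) S (star S) G) (x : ℋ) :
    0 ≤ (⟪x, ca S (star S) x⟫_ℂ).re := by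
  obtain ⟨h1, h2, h3⟩ := ab_norms r x
  have h4 := X_norm r x
  have h5 : |(⟪x, cX S (star S) x⟫_ℂ).re| ≤ ‖x‖ * ‖x‖ := by
    calc |(⟪x, cX S (star S) x⟫_ℂ).re| ≤ ‖⟪x, cX S (star S) x⟫_ℂ‖ := Complex.abs_re_le_norm _
      _ ≤ ‖x‖ * ‖cX S (star S) x‖ := norm_inner_le_norm _ _
      _ ≤ ‖x‖ * ‖x‖ := by gcongr
  have h6 := (abs_le.1 h5).1
  rw [h3]
  nlinarith

/-- cross term: the norm of `(h + i y) x` for self-adjoint `h, y` -/
theorem cross {h y : ℋ →L[ℂ] ℋ} (hh : star h = h) (hy : star y = y) (x : ℋ) :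
    ‖(h + I • y) x‖ ^ 2 = ‖h x‖ ^ 2 + ‖y x‖ ^ 2 + (I * ⟪x, (h * y - y * h) x⟫_ℂ).re := by
  simp only [ContinuousLinearMap.add_apply, ContinuousLinearMap.smul_apply,
    ContinuousLinearMap.sub_apply, ContinuousLinearMap.mul_apply]
  rw [@norm_add_sq ℂ, norm_smul, inner_smul_right, inner_sub_right]
  have h1 : ⟪x, h (y x)⟫_ℂ = ⟪h x, y x⟫_ℂ := by rw [← hh, star_inner_right, hh]
  have h2 : ⟪x, y (h x)⟫_ℂ = ⟪y x, h x⟫_ℂ := by
    conv_lhs => rw [← hy]
    rw [star_inner_right]
  have h3 : (⟪y x, h x⟫_ℂ).im = -(⟪h x, y x⟫_ℂ).im := by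
    rw [← inner_conj_symm (y x) (h x), Complex.conj_im]
  rw [h1, h2]
  simp [h3]
  ring

theorem inner_self_re' (x : ℋ) : (⟪x, x⟫_ℂ).re = ‖x‖ ^ 2 := by
  rw [← @inner_self_eq_norm_sq ℂ]; rfl

theorem form_sq {h : ℋ →L[ℂ] ℋ} (hh : star h = h) (x : ℋ) :
    (⟪x, h (h x)⟫_ℂ).re = ‖h x‖ ^ 2 := by
  have : ⟪x, h (h x)⟫_ℂ = ⟪h x, h x⟫_ℂ := by
    conv_lhs => rw [← hh]
    rw [star_inner_right, hh]
  rw [this, inner_self_re']

/-- quadratic form of a product `star T * M * T` -/
theorem form_conj (T M : ℋ →L[ℂ] ℋ) (x : ℋ) :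
    ⟪x, (star T * M * T) x⟫_ℂ = ⟪T x, M (T x)⟫_ℂ := by
  simp only [ContinuousLinearMap.mul_apply]
  rw [star_inner_right]

theorem q_nonneg (r : Rel R (star R) S (star S) G) (x : ℋ) :
    0 ≤ (⟪x, cq S (star S) x⟫_ℂ).re := by
  have h1 : (⟪x, cq S (star S) x⟫_ℂ).re = (‖x‖ ^ 2 - ‖cX S (star S) x‖ ^ 2) / 4 := by
    simp only [cq, ContinuousLinearMap.smul_apply, ContinuousLinearMap.sub_apply,
      ContinuousLinearMap.one_apply, ContinuousLinearMap.mul_apply]
    rw [inner_smul_right, inner_sub_right]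
    have h2 := form_sq (star_X (S := S)) x
    have h3 := inner_self_re' x
    have h4 : ((1/4 : ℂ) * (⟪x, x⟫_ℂ - ⟪x, cX S (star S) (cX S (star S) x)⟫_ℂ)).re
        = (1/4) * ((⟪x, x⟫_ℂ).re - (⟪x, cX S (star S) (cX S (star S) x)⟫_ℂ).re) := by
      simp
    rw [h4, h2, h3]
    ring
  have h4 := X_norm r x
  have h5 : ‖cX S (star S) x‖ ^ 2 ≤ ‖x‖ ^ 2 := by gcongr
  rw [h1]
  linarith

/-- The key lower bound for `h`. -/
theorem h_lower (s : Sys R S G w) (x : ℋ) :
    ‖x‖ ^ 2 - ‖cP S (star S) x‖ ^ 2 - ‖cb S (star S) (cE R (star R) x)‖ ^ 2 ≤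
      ‖ch R (star R) S (star S) G x‖ ^ 2 := by
  have r := s.rel
  set h := ch R (star R) S (star S) G with hh
  have h0 : ‖h x‖ ^ 2 = (⟪x, (h * h) x⟫_ℂ).re := by
    rw [ContinuousLinearMap.mul_apply, form_sq (star_h s)]
  have e1 : cE R (star R) * cb S (star S) * cb S (star S) * cE R (star R)
      = star (cb S (star S) * cE R (star R)) * 1 * (cb S (star S) * cE R (star R)) := by
    rw [star_mul, star_b, star_E, mul_one]; simp only [mul_assoc]
  have e2 : (1 + star R * star R) * cq S (star S) * (1 + R * R)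
      = star (1 + R * R) * cq S (star S) * (1 + R * R) := by
    rw [star_add, star_one, star_mul]
  have e3 : (1 + I • star R) * cP S (star S) * (1 - I • R)
      = star (1 - I • R) * cP S (star S) * (1 - I • R) := by
    rw [star_sub, star_one, star_smul]
    simp
  rw [h0, key r, e1, e2, e3]
  simp only [ContinuousLinearMap.add_apply, ContinuousLinearMap.sub_apply,
    ContinuousLinearMap.smul_apply, ContinuousLinearMap.one_apply]
  rw [inner_add_right, inner_add_right, inner_sub_right, inner_sub_right, inner_smul_right,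
    form_conj, form_conj, form_conj]
  have t1 : (⟪x, cP S (star S) x⟫_ℂ).re = ‖cP S (star S) x‖ ^ 2 := proj_norm star_P (PP r) x
  have t2 : (⟪(cb S (star S) * cE R (star R)) x,
      (1 : ℋ →L[ℂ] ℋ) ((cb S (star S) * cE R (star R)) x)⟫_ℂ).re
      = ‖cb S (star S) (cE R (star R) x)‖ ^ 2 := by
    rw [ContinuousLinearMap.one_apply, ContinuousLinearMap.mul_apply,
      ← @inner_self_eq_norm_sq ℂ]; rfl
  have t3 := q_nonneg r ((1 + R * R) x)
  have t4 : 0 ≤ (⟪(1 - I • R) x, cP S (star S) ((1 - I • R) x)⟫_ℂ).re := by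
    rw [proj_norm star_P (PP r)]; positivity
  have t5 : (⟪x, x⟫_ℂ).re = ‖x‖ ^ 2 := by rw [← @inner_self_eq_norm_sq ℂ]; rfl
  simp only [Complex.add_re, Complex.sub_re, t1, t2, t5]
  have t6 : ((1/4 : ℂ) * ⟪(1 - I • R) x, cP S (star S) ((1 - I • R) x)⟫_ℂ).re
      = (1/4) * (⟪(1 - I • R) x, cP S (star S) ((1 - I • R) x)⟫_ℂ).re := by
    simp
  rw [t6]
  linarith

theorem split_norm (r : Rel R (star R) S (star S) G) (x : ℋ) :
    ‖x‖ ^ 2 = ‖cE R (star R) x‖ ^ 2 + ‖star R x‖ ^ 2 := by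
  rw [← proj_norm star_E (EE r) x, ← inner_self_re' (star R x), star_inner_left, ← inner_self_re' x]
  have : cE R (star R) x = x - R (star R x) := by
    simp [cE]
  rw [this, inner_sub_right]
  simp

theorem crossE (s : Sys R S G w) (x : ℋ) :
    (⟪x, (cE R (star R) * ch R (star R) S (star S) G
        - ch R (star R) S (star S) G * cE R (star R)) x⟫_ℂ)
      = ⟪cE R (star R) x, ca S (star S) (cE R (star R) (star R x))⟫_ℂ
        - ⟪cE R (star R) (star R x), ca S (star S) (cE R (star R) x)⟫_ℂ := by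
  have r := s.rel
  have h1 : cE R (star R) * ch R (star R) S (star S) G
        - ch R (star R) S (star S) G * cE R (star R)
      = cE R (star R) * ca S (star S) * star R - R * ca S (star S) * cE R (star R) := by
    rw [← neg_sub, comm_E r, neg_sub]
  rw [h1]
  simp only [ContinuousLinearMap.sub_apply, ContinuousLinearMap.mul_apply]
  rw [inner_sub_right]
  congr 1
  · -- ⟪x, E a R' x⟫ = ⟪E x, a (E R' x)⟫
    have h2 : cE R (star R) (ca S (star S) (star R x)) =
        cE R (star R) (ca S (star S) (cE R (star R) (star R x))) := by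
      have : cE R (star R) * ca S (star S) = cE R (star R) * (ca S (star S) * cE R (star R)) := by
        rw [← Ea r, ← mul_assoc, EE r]
      have := congrArg (fun A : ℋ →L[ℂ] ℋ => A (star R x)) this
      simpa using this
    rw [h2]
    conv_lhs => rw [← star_E (R := R), star_inner_right]
    rw [star_E]
  · have h2 : ca S (star S) (cE R (star R) x) = cE R (star R) (ca S (star S) (cE R (star R) x)) := by
      have : ca S (star S) * cE R (star R) = cE R (star R) * (ca S (star S) * cE R (star R)) := by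
        rw [← mul_assoc, Ea r, mul_assoc, EE r]
      have := congrArg (fun A : ℋ →L[ℂ] ℋ => A x) this
      simpa using this
    rw [← star_inner_left R]
    rw [h2]
    conv_lhs => rw [← star_E (R := R), star_inner_right]
    rw [star_E, ← h2]

theorem crossE_bound1 (s : Sys R S G w) (x : ℋ) :
    -((⟪cE R (star R) x, ca S (star S) (cE R (star R) x)⟫_ℂ).re
      + (⟪cE R (star R) (star R x), ca S (star S) (cE R (star R) (star R x))⟫_ℂ).re) ≤
    (I * ⟪x, (cE R (star R) * ch R (star R) S (star S) G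
        - ch R (star R) S (star S) G * cE R (star R)) x⟫_ℂ).re := by
  rw [crossE s]
  set u0 := cE R (star R) x
  set u1 := cE R (star R) (star R x)
  have h1 := a_nonneg s.rel (u0 + I • u1)
  have h2 : ⟪u0 + I • u1, ca S (star S) (u0 + I • u1)⟫_ℂ
      = ⟪u0, ca S (star S) u0⟫_ℂ + ⟪u1, ca S (star S) u1⟫_ℂ
        + I * (⟪u0, ca S (star S) u1⟫_ℂ - ⟪u1, ca S (star S) u0⟫_ℂ) := by
    rw [map_add, map_smul, inner_add_left, inner_add_right, inner_add_right, inner_smul_left,
      inner_smul_right, inner_smul_left, inner_smul_right]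
    simp only [conj_I]
    linear_combination (-⟪u1, ca S (star S) u1⟫_ℂ) * I_sq
  rw [h2] at h1
  simp only [Complex.add_re] at h1
  linarith

theorem crossE_bound2 (s : Sys R S G w) (x : ℋ) :
    -(2 * (‖ca S (star S) (cE R (star R) x)‖ * ‖cE R (star R) (star R x)‖)) ≤
    (I * ⟪x, (cE R (star R) * ch R (star R) S (star S) G
        - ch R (star R) S (star S) G * cE R (star R)) x⟫_ℂ).re := by
  rw [crossE s]
  set u0 := cE R (star R) x
  set u1 := cE R (star R) (star R x)
  have h1 : ⟪u0, ca S (star S) u1⟫_ℂ = ⟪ca S (star S) u0, u1⟫_ℂ := by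
    conv_lhs => rw [← star_a (S := S), star_inner_right]
  rw [h1]
  have h2 : ‖I * (⟪ca S (star S) u0, u1⟫_ℂ - ⟪u1, ca S (star S) u0⟫_ℂ)‖
      ≤ 2 * (‖ca S (star S) u0‖ * ‖u1‖) := by
    rw [norm_mul, norm_I, one_mul]
    have a1 := norm_inner_le_norm (𝕜 := ℂ) (ca S (star S) u0) u1
    have a2 := norm_inner_le_norm (𝕜 := ℂ) u1 (ca S (star S) u0)
    have a3 := norm_sub_le (⟪ca S (star S) u0, u1⟫_ℂ) (⟪u1, ca S (star S) u0⟫_ℂ)
    rw [mul_comm ‖u1‖] at a2
    linarith
  have h3 := (abs_le.1 ((Complex.abs_re_le_norm _).trans h2)).1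
  exact h3

theorem refl_norm {p : ℋ →L[ℂ] ℋ} (h1 : star p = p) (h2 : p * p = p) (x : ℋ) :
    ‖((1/2 : ℂ) • (1 - p - p)) x‖ ^ 2 = (1/4) * ‖x‖ ^ 2 := by
  have hy : star ((1/2 : ℂ) • (1 - p - p)) = (1/2 : ℂ) • (1 - p - p) := by
    rw [star_smul, star_sub, star_sub, star_one, h1]
    congr 1
    simp
  rw [← form_sq hy, ← ContinuousLinearMap.mul_apply]
  have h3 : ((1/2 : ℂ) • (1 - p - p)) * ((1/2 : ℂ) • (1 - p - p)) = (1/4 : ℂ) • 1 := by
    simp only [smul_mul_assoc, mul_smul_comm, mul_sub, sub_mul, mul_one, one_mul, h2, smul_smul]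
    module
  rw [h3, ContinuousLinearMap.smul_apply, ContinuousLinearMap.one_apply, inner_smul_right,
    ← inner_self_re' x]
  simp

theorem refl_star {p : ℋ →L[ℂ] ℋ} (h1 : star p = p) :
    star ((1/2 : ℂ) • (1 - p - p)) = (1/2 : ℂ) • (1 - p - p) := by
  rw [star_smul, star_sub, star_sub, star_one, h1]
  congr 1
  simp

theorem T0_eq : cT0 R (star R) S (star S) G
    = ch R (star R) S (star S) G + I • ((1/2 : ℂ) • (1 - cE R (star R) - cE R (star R))) := by
  rw [cT0, smul_smul]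
  congr 2
  ring

theorem T0_lower (s : Sys R S G w) (x : ℋ) :
    (5/4) * ‖x‖ ^ 2 - ‖cP S (star S) x‖ ^ 2 - ‖cb S (star S) (cE R (star R) x)‖ ^ 2
      - (⟪cE R (star R) x, ca S (star S) (cE R (star R) x)⟫_ℂ).re
      - (⟪cE R (star R) (star R x), ca S (star S) (cE R (star R) (star R x))⟫_ℂ).re ≤
      ‖cT0 R (star R) S (star S) G x‖ ^ 2 := by
  have h1 := h_lower s x
  have h2 := crossE_bound1 s x
  rw [T0_eq, cross (star_h s) (refl_star star_E), refl_norm star_E (EE s.rel)]
  have h3 : ch R (star R) S (star S) G * ((1/2 : ℂ) • (1 - cE R (star R) - cE R (star R)))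
      - ((1/2 : ℂ) • (1 - cE R (star R) - cE R (star R))) * ch R (star R) S (star S) G
      = cE R (star R) * ch R (star R) S (star S) G
        - ch R (star R) S (star S) G * cE R (star R) := by
    simp only [smul_mul_assoc, mul_smul_comm, mul_sub, sub_mul, mul_one, one_mul]
    module
  rw [h3]
  linarith

theorem star_u : star (cu R (star R)) = cu R (star R) := by
  simp only [cu, star_sub, star_add, star_one, star_mul, star_star, mul_assoc]

theorem u_norm (r : Rel R (star R) S (star S) G) (x : ℋ) : ‖cu R (star R) x‖ = ‖x‖ :=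
  iso_norm (by rw [star_u]; exact uu r) x

theorem T0u_lower (s : Sys R S G w) (x : ℋ) :
    (5/4) * ‖x‖ ^ 2 - ‖cP S (star S) x‖ ^ 2 - ‖cb S (star S) (cE R (star R) x)‖ ^ 2
      - (⟪cE R (star R) x, ca S (star S) (cE R (star R) x)⟫_ℂ).re
      - (⟪cE R (star R) (star R x), ca S (star S) (cE R (star R) (star R x))⟫_ℂ).re ≤
      ‖cT0 R (star R) S (star S) G (cu R (star R) x)‖ ^ 2 := by
  have r := s.rel
  have h1 := T0_lower s (cu R (star R) x)
  have h2 : cE R (star R) (cu R (star R) x) = - cE R (star R) x := by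
    have := congrArg (fun A : ℋ →L[ℂ] ℋ => A x) (Eu r)
    simpa using this
  have h3 : cE R (star R) (star R (cu R (star R) x)) = - cE R (star R) (star R x) := by
    have := congrArg (fun A : ℋ →L[ℂ] ℋ => A x) (ERu r)
    simpa using this
  have h4 : ‖cP S (star S) (cu R (star R) x)‖ = ‖cP S (star S) x‖ := by
    have := congrArg (fun A : ℋ →L[ℂ] ℋ => A x) (uP r)
    simp only [ContinuousLinearMap.mul_apply] at this
    rw [this, u_norm r]
  rw [u_norm r, h2, h3, h4] at h1
  simpa using h1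

/-- convexity identity -/
theorem convex_sq (x y : ℋ) (t : ℝ) :
    ‖((1 - t : ℝ) : ℂ) • x + ((t : ℝ) : ℂ) • y‖ ^ 2
      = (1 - t) * ‖x‖ ^ 2 + t * ‖y‖ ^ 2 - t * (1 - t) * ‖x - y‖ ^ 2 := by
  rw [@norm_add_sq ℂ, @norm_sub_sq ℂ, inner_smul_left, inner_smul_right, norm_smul, norm_smul,
    mul_pow, mul_pow]
  simp only [Complex.norm_real, Real.norm_eq_abs, sq_abs, Complex.conj_ofReal]
  have : RCLike.re (((1 - t : ℝ) : ℂ) * ((t : ℂ) * ⟪x, y⟫_ℂ)) = (1 - t) * t * RCLike.re ⟪x, y⟫_ℂ := by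
    rw [← mul_assoc, ← Complex.ofReal_mul]
    simp
  rw [this]
  ring

theorem B_norm (s : Sys R S G w) (x : ℋ) :
    ‖cB R (star R) S (star S) x‖ ^ 2
      = ‖cb S (star S) (cE R (star R) (star R x))‖ ^ 2
        + ‖cb S (star S) (cE R (star R) (star R (star R x)))‖ ^ 2 := by
  have r := s.rel
  set u1 := cE R (star R) (star R x) with hu1
  set u2 := cE R (star R) (star R (star R x)) with hu2
  have hbR : ∀ y, cb S (star S) (R y) = R (cb S (star S) y) := by
    intro y
    have := congrArg (fun A : ℋ →L[ℂ] ℋ => A y) (Rb r)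
    simpa using this.symm
  have h1 : cB R (star R) S (star S) x = R (R (cb S (star S) u1) + cb S (star S) u2) := by
    simp only [cB, ContinuousLinearMap.add_apply, ContinuousLinearMap.mul_apply]
    rw [hbR, hbR, hbR, map_add]
  have h2 : star R (cb S (star S) u2) = 0 := by
    have e1 : star R * (cb S (star S) * cE R (star R)) = 0 := by
      rw [← Eb r, ← mul_assoc, R'E r, zero_mul]
    have := congrArg (fun A : ℋ →L[ℂ] ℋ => A (star R (star R x))) e1
    simpa using this
  rw [h1, iso_norm r.RR, @norm_add_sq ℂ, ← star_inner_right, h2, iso_norm r.RR]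
  simp

theorem split3 (r : Rel R (star R) S (star S) G) (x : ℋ) :
    ‖x‖ ^ 2 = ‖cE R (star R) x‖ ^ 2 + ‖cE R (star R) (star R x)‖ ^ 2
      + ‖cE R (star R) (star R (star R x))‖ ^ 2 + ‖star R (star R (star R x))‖ ^ 2 := by
  rw [split_norm r x, split_norm r (star R x), split_norm r (star R (star R x))]
  ring

/-- Path 2 lower bound. -/
theorem path2 (s : Sys R S G w) (x : ℋ) (hx : ‖cP S (star S) x‖ ≤ ‖star R (star R (star R x))‖)
    (t : ℝ) (ht0 : 0 ≤ t) (ht1 : t ≤ 1) :
    (1/4) * ‖x‖ ^ 2 ≤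
      ‖(cT0 R (star R) S (star S) G - (t : ℂ) • cB R (star R) S (star S)) x‖ ^ 2 := by
  have r := s.rel
  have h1 : (cT0 R (star R) S (star S) G - (t : ℂ) • cB R (star R) S (star S)) x
      = ((1 - t/2 : ℝ) : ℂ) • cT0 R (star R) S (star S) G x
        + ((t/2 : ℝ) : ℂ) • cu R (star R) (cT0 R (star R) S (star S) G (cu R (star R) x)) := by
    have e := congrArg (fun A : ℋ →L[ℂ] ℋ => A x) (bond r)
    simp only [ContinuousLinearMap.sub_apply, ContinuousLinearMap.add_apply,
      ContinuousLinearMap.mul_apply] at e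
    have e2 : cu R (star R) (cT0 R (star R) S (star S) G (cu R (star R) x))
        = cT0 R (star R) S (star S) G x
          - (cB R (star R) S (star S) x + cB R (star R) S (star S) x) := by
      rw [← e]; abel
    rw [e2, ContinuousLinearMap.sub_apply, ContinuousLinearMap.smul_apply]
    push_cast
    module
  have h2 : cT0 R (star R) S (star S) G x
      - cu R (star R) (cT0 R (star R) S (star S) G (cu R (star R) x))
      = (2 : ℂ) • cB R (star R) S (star S) x := by
    have e := congrArg (fun A : ℋ →L[ℂ] ℋ => A x) (bond r)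
    simp only [ContinuousLinearMap.sub_apply, ContinuousLinearMap.add_apply,
      ContinuousLinearMap.mul_apply] at e
    rw [e, two_smul]
  rw [h1, convex_sq, h2, u_norm r, norm_smul, mul_pow, B_norm s]
  have a1 := T0_lower s x
  have a2 := T0u_lower s x
  have a3 := split3 r x
  have a4 := ab_ineq1 r (cE R (star R) x)
  have a5 := ab_ineq1 r (cE R (star R) (star R x))
  have a6 := ab_ineq2 r (cE R (star R) (star R (star R x)))
  have a7 : ‖cP S (star S) x‖ ^ 2 ≤ ‖star R (star R (star R x))‖ ^ 2 := by gcongr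
  have a8 : (0:ℝ) ≤ ‖ca S (star S) (cE R (star R) (star R (star R x)))‖ ^ 2 := by positivity
  have a9 : ‖(2 : ℂ)‖ ^ 2 = 4 := by norm_num
  rw [a9]
  set Bn := ‖cb S (star S) (cE R (star R) (star R x))‖ ^ 2
      + ‖cb S (star S) (cE R (star R) (star R (star R x)))‖ ^ 2 with hBn
  have b1 : 0 ≤ Bn := by positivity
  have b2 : t / 2 * (1 - t / 2) * (4 * Bn) ≤ Bn := by
    have : t / 2 * (1 - t / 2) * 4 ≤ 1 := by nlinarith [sq_nonneg (t - 1)]
    nlinarith
  have b3 : (1 - t/2) * ((5/4) * ‖x‖ ^ 2 - ‖cP S (star S) x‖ ^ 2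
      - ‖cb S (star S) (cE R (star R) x)‖ ^ 2
      - (⟪cE R (star R) x, ca S (star S) (cE R (star R) x)⟫_ℂ).re
      - (⟪cE R (star R) (star R x), ca S (star S) (cE R (star R) (star R x))⟫_ℂ).re) ≤
      (1 - t/2) * ‖cT0 R (star R) S (star S) G x‖ ^ 2 :=
    mul_le_mul_of_nonneg_left a1 (by linarith)
  have b4 : (t/2) * ((5/4) * ‖x‖ ^ 2 - ‖cP S (star S) x‖ ^ 2
      - ‖cb S (star S) (cE R (star R) x)‖ ^ 2
      - (⟪cE R (star R) x, ca S (star S) (cE R (star R) x)⟫_ℂ).re
      - (⟪cE R (star R) (star R x), ca S (star S) (cE R (star R) (star R x))⟫_ℂ).re) ≤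
      (t/2) * ‖cT0 R (star R) S (star S) G (cu R (star R) x)‖ ^ 2 :=
    mul_le_mul_of_nonneg_left a2 (by linarith)
  nlinarith

end Pool.Agent.Helper172.WvN
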