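import Mathlib
import Pool.Agent.Helper172.WvN.Hil
set_option autoImplicit false
set_option linter.all false
open Complex
open scoped InnerProductSpace

namespace Pool.Agent.Helper172.WvN

variable {ℋ : Type*} [NormedAddCommGroup ℋ] [InnerProductSpace ℂ ℋ] [CompleteSpace ℋ]
variable {R S G : ℋ →L[ℂ] ℋ} {w : ℋ}

theorem star_pow_norm_le (r : Rel R (star R) S (star S) G) (m : ℕ) (x : ℋ) :
    ‖(star R ^ m) x‖ ≤ ‖x‖ := by
  induction m generalizing x with
  | zero => simp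
  | succ m ih =>
    rw [pow_succ, ContinuousLinearMap.mul_apply]
    exact (ih _).trans (iso_star_norm r.RR x)

theorem split_le (r : Rel R (star R) S (star S) G) (m : ℕ) (hm : 1 ≤ m) (x : ℋ) :
    ‖cE R (star R) x‖ ^ 2 + ‖(star R ^ m) x‖ ^ 2 ≤ ‖x‖ ^ 2 := by
  obtain ⟨k, rfl⟩ := Nat.exists_eq_add_of_le' hm
  rw [split_norm r x, pow_succ (star R), ContinuousLinearMap.mul_apply]
  have := star_pow_norm_le r k (star R x)
  gcongr

theorem arith1 (e N y : ℝ) (he : 0 ≤ e) (hN : e ≤ N) (hy : 0 ≤ y)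
    (h : (1/2) * e - (1/100) * N ≤ y) : e ^ 2 / 4 - (1/100) * N ^ 2 ≤ y ^ 2 := by
  rcases le_or_gt 0 ((1/2) * e - (1/100) * N) with h1 | h1
  · nlinarith
  · nlinarith

theorem arith2 (N e f g Q α β P y1 y2 H Y c1 c2 t : ℝ) (hN0 : 0 ≤ N) (he0 : 0 ≤ e) (hf0 : 0 ≤ f)
    (hg0 : 0 ≤ g) (hQ0 : 0 ≤ Q) (hα0 : 0 ≤ α) (hP0 : 0 ≤ P) (hy10 : 0 ≤ y1) (hy20 : 0 ≤ y2)
    (hNsq : N ^ 2 = e ^ 2 + (f ^ 2 + g ^ 2)) (k1 : N ^ 2 - P ^ 2 - β ^ 2 ≤ H)
    (k4 : β ^ 2 + α ^ 2 ≤ e ^ 2) (hPQ : P ≤ Q) (hQg : Q ≤ g) (hαe : α ≤ e)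
    (d2 : (1/2) * e - (1/100) * N ≤ y1) (d4 : (1/2) * Q - (1/100) * N ≤ y2)
    (d5 : y1 ^ 2 + y2 ^ 2 ≤ Y) (ht0 : 0 ≤ t) (ht1 : t ≤ 1)
    (hc1 : -(2 * (α * f)) ≤ c1) (hc2 : -((1/100) * N ^ 2) ≤ c2) :
    (1/20) * N ^ 2 ≤ H + Y + ((1 - t) * c1 + t * c2) := by
  have heN : e ≤ N := by
    apply (sq_le_sq₀ he0 hN0).1
    nlinarith [sq_nonneg f, sq_nonneg g]
  have hgN : g ≤ N := by
    apply (sq_le_sq₀ hg0 hN0).1
    nlinarith [sq_nonneg f, sq_nonneg e]
  have l1 := arith1 e N y1 he0 heN hy10 d2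
  have l2 := arith1 Q N y2 hQ0 (hQg.trans hgN) hy20 d4
  have l3 : P ^ 2 ≤ Q ^ 2 := by gcongr
  have l4 : Q ^ 2 ≤ g ^ 2 := by gcongr
  have l5 : -(2 * (α * f)) ≤ (1 - t) * c1 := by
    have : 0 ≤ α * f := by positivity
    nlinarith
  have l6 : -((1/100) * N ^ 2) ≤ t * c2 := by
    have : 0 ≤ (1/100) * N ^ 2 := by positivity
    nlinarith
  have l7 : f ^ 2 ≤ 2 * e ^ 2 + 2 * (f - α) ^ 2 := by
    have : α ^ 2 ≤ e ^ 2 := by gcongr
    nlinarith [sq_nonneg (f - 2 * α)]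
  have l8 := sq_nonneg (f - α)
  have l9 := sq_nonneg e
  have l10 := sq_nonneg g
  have l11 : (f - α) ^ 2 = f ^ 2 + α ^ 2 - 2 * (α * f) := by ring
  linarith

/-- the operator used on the first path -/
noncomputable def cY (R p : ℋ →L[ℂ] ℋ) (t : ℝ) : ℋ →L[ℂ] ℋ :=
  ((1 - t : ℝ) : ℂ) • ((1/2 : ℂ) • (1 - cE R (star R) - cE R (star R)))
    + ((t : ℝ) : ℂ) • ((1/2 : ℂ) • (1 - p - p))

theorem cY_star {p : ℋ →L[ℂ] ℋ} (hp : star p = p) (t : ℝ) : star (cY R p t) = cY R p t := by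
  have h1 := refl_star (star_E (R := R))
  have h2 := refl_star hp
  unfold cY
  rw [star_add, star_smul (((1 - t : ℝ) : ℂ)), star_smul ((t : ℝ) : ℂ), h1, h2]
  simp

theorem path1 (s : Sys R S G w) {p : ℋ →L[ℂ] ℋ} (hp1 : star p = p) (hp2 : p * p = p)
    (hε : ∀ x, ‖(p * ch R (star R) S (star S) G - ch R (star R) S (star S) G * p) x‖
      ≤ (1/100) * ‖x‖)
    (hδ1 : ∀ x, ‖cE R (star R) (x - p x)‖ ≤ (1/100) * ‖x‖) (m : ℕ) (hm : 2 ≤ m)
    (hδ2 : ∀ x, ‖(star R ^ m) (p x)‖ ≤ (1/100) * ‖x‖)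
    (x : ℋ) (hx : ‖cP S (star S) x‖ ≤ ‖(star R ^ m) x‖)
    (t : ℝ) (ht0 : 0 ≤ t) (ht1 : t ≤ 1) :
    (1/20) * ‖x‖ ^ 2 ≤ ‖(ch R (star R) S (star S) G + I • cY R p t) x‖ ^ 2 := by
  have r := s.rel
  rw [cross (star_h s) (cY_star hp1 t)]
  have e1 : ch R (star R) S (star S) G * cY R p t - cY R p t * ch R (star R) S (star S) G
      = ((1 - t : ℝ) : ℂ) • (cE R (star R) * ch R (star R) S (star S) G
          - ch R (star R) S (star S) G * cE R (star R))
        + ((t : ℝ) : ℂ) • (p * ch R (star R) S (star S) G - ch R (star R) S (star S) G * p) := by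
    simp only [cY, smul_mul_assoc, mul_smul_comm, mul_sub, sub_mul, mul_one, one_mul, add_mul,
      mul_add]
    module
  have c1 := crossE_bound2 s x
  have c2 : -((1/100) * ‖x‖ ^ 2) ≤
      (I * ⟪x, (p * ch R (star R) S (star S) G - ch R (star R) S (star S) G * p) x⟫_ℂ).re := by
    have : ‖I * ⟪x, (p * ch R (star R) S (star S) G - ch R (star R) S (star S) G * p) x⟫_ℂ‖
        ≤ (1/100) * ‖x‖ ^ 2 := by
      rw [norm_mul, norm_I, one_mul]
      calc ‖⟪x, (p * ch R (star R) S (star S) G - ch R (star R) S (star S) G * p) x⟫_ℂ‖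
          ≤ ‖x‖ * ‖(p * ch R (star R) S (star S) G - ch R (star R) S (star S) G * p) x‖ :=
            norm_inner_le_norm _ _
        _ ≤ ‖x‖ * ((1/100) * ‖x‖) := by gcongr; exact hε x
        _ = (1/100) * ‖x‖ ^ 2 := by ring
    exact (abs_le.1 ((Complex.abs_re_le_norm _).trans this)).1
  have c3 : (I * ⟪x, (ch R (star R) S (star S) G * cY R p t
        - cY R p t * ch R (star R) S (star S) G) x⟫_ℂ).re
      = (1 - t) * (I * ⟪x, (cE R (star R) * ch R (star R) S (star S) G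
          - ch R (star R) S (star S) G * cE R (star R)) x⟫_ℂ).re
        + t * (I * ⟪x, (p * ch R (star R) S (star S) G
          - ch R (star R) S (star S) G * p) x⟫_ℂ).re := by
    rw [e1, ContinuousLinearMap.add_apply, ContinuousLinearMap.smul_apply,
      ContinuousLinearMap.smul_apply, inner_add_right, inner_smul_right, inner_smul_right]
    rw [mul_add, Complex.add_re]
    congr 1
    · rw [mul_left_comm, Complex.re_ofReal_mul]
    · rw [mul_left_comm, Complex.re_ofReal_mul]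
  rw [c3]
  -- first component of `Y x`
  have d1 : cE R (star R) (cY R p t x)
      = (-(1/2 : ℂ)) • cE R (star R) x + ((t : ℝ) : ℂ) • cE R (star R) (x - p x) := by
    have hE : cE R (star R) (cE R (star R) x) = cE R (star R) x := by
      have := congrArg (fun A : ℋ →L[ℂ] ℋ => A x) (EE r)
      simpa using this
    simp only [cY, ContinuousLinearMap.add_apply, ContinuousLinearMap.smul_apply,
      ContinuousLinearMap.sub_apply, ContinuousLinearMap.one_apply, map_add, map_smul, map_sub, hE]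
    push_cast
    module
  have d2 : (1/2) * ‖cE R (star R) x‖ - (1/100) * ‖x‖ ≤ ‖cE R (star R) (cY R p t x)‖ := by
    rw [d1]
    have n1 : ‖(-(1/2 : ℂ)) • cE R (star R) x‖ = (1/2) * ‖cE R (star R) x‖ := by
      rw [norm_smul]; norm_num
    have n2 : ‖((t : ℝ) : ℂ) • cE R (star R) (x - p x)‖ ≤ (1/100) * ‖x‖ := by
      rw [norm_smul, Complex.norm_real, Real.norm_eq_abs, abs_of_nonneg ht0]
      calc t * ‖cE R (star R) (x - p x)‖ ≤ 1 * ((1/100) * ‖x‖) := by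
            gcongr; exact hδ1 x
        _ = (1/100) * ‖x‖ := one_mul _
    have n3 := norm_sub_le_norm_add ((-(1/2 : ℂ)) • cE R (star R) x)
      (((t : ℝ) : ℂ) • cE R (star R) (x - p x))
    linarith
  have d3 : (star R ^ m) (cY R p t x)
      = ((1/2 : ℂ)) • (star R ^ m) x - ((t : ℝ) : ℂ) • (star R ^ m) (p x) := by
    have hE : (star R ^ m) (cE R (star R) x) = 0 := by
      obtain ⟨k, rfl⟩ := Nat.exists_eq_add_of_le' (show 1 ≤ m by omega)
      rw [pow_succ, ContinuousLinearMap.mul_apply]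
      have := congrArg (fun A : ℋ →L[ℂ] ℋ => A x) (R'E r)
      have h0 : star R (cE R (star R) x) = 0 := by simpa using this
      rw [h0, map_zero]
    simp only [cY, ContinuousLinearMap.add_apply, ContinuousLinearMap.smul_apply,
      ContinuousLinearMap.sub_apply, ContinuousLinearMap.one_apply, map_add, map_smul, map_sub, hE]
    push_cast
    module
  have d4 : (1/2) * ‖(star R ^ m) x‖ - (1/100) * ‖x‖ ≤ ‖(star R ^ m) (cY R p t x)‖ := by
    rw [d3]
    have n1 : ‖((1/2 : ℂ)) • (star R ^ m) x‖ = (1/2) * ‖(star R ^ m) x‖ := by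
      rw [norm_smul]; norm_num
    have n2 : ‖((t : ℝ) : ℂ) • (star R ^ m) (p x)‖ ≤ (1/100) * ‖x‖ := by
      rw [norm_smul, Complex.norm_real, Real.norm_eq_abs, abs_of_nonneg ht0]
      calc t * ‖(star R ^ m) (p x)‖ ≤ 1 * ((1/100) * ‖x‖) := by
            gcongr; exact hδ2 x
        _ = (1/100) * ‖x‖ := one_mul _
    have n3 := norm_sub_norm_le (((1/2 : ℂ)) • (star R ^ m) x) (((t : ℝ) : ℂ) • (star R ^ m) (p x))
    linarith
  have d5 := split_le r m (by omega) (cY R p t x)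
  have k1 := h_lower s x
  have k2 := split_norm r x
  have k3 := split_norm r (star R x)
  have k4 := ab_ineq2 r (cE R (star R) x)
  have k5 : ‖(star R ^ m) x‖ ≤ ‖star R (star R x)‖ := by
    obtain ⟨k, rfl⟩ := Nat.exists_eq_add_of_le' hm
    rw [pow_succ, pow_succ, ContinuousLinearMap.mul_apply, ContinuousLinearMap.mul_apply]
    exact star_pow_norm_le r k _
  have k6 : ‖ca S (star S) (cE R (star R) x)‖ ≤ ‖cE R (star R) x‖ := by
    have : ‖ca S (star S) (cE R (star R) x)‖ ^ 2 ≤ ‖cE R (star R) x‖ ^ 2 := by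
      have : 0 ≤ ‖cb S (star S) (cE R (star R) x)‖ ^ 2 := by positivity
      linarith
    exact (sq_le_sq₀ (norm_nonneg _) (norm_nonneg _)).1 this
  have hNsq : ‖x‖ ^ 2 = ‖cE R (star R) x‖ ^ 2 + (‖cE R (star R) (star R x)‖ ^ 2
      + ‖star R (star R x)‖ ^ 2) := by rw [k2, k3]
  exact arith2 _ _ _ _ _ _ _ _ _ _ _ _ _ _ _ (norm_nonneg _) (norm_nonneg _) (norm_nonneg _)
    (norm_nonneg _) (norm_nonneg _) (norm_nonneg _) (norm_nonneg _) (norm_nonneg _) (norm_nonneg _)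
    hNsq k1 k4 hx k5 k6 d2 d4 d5 ht0 ht1 c1 c2

end Pool.Agent.Helper172.WvN
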