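import Mathlib
import Pool.Agent.Helper172.WvN.Path
set_option autoImplicit false
set_option linter.all false
open Complex
open scoped InnerProductSpace NNReal

namespace Pool.Agent.Helper172.WvN

variable {ℋ : Type*} [NormedAddCommGroup ℋ] [InnerProductSpace ℂ ℋ] [CompleteSpace ℋ]

/-- The orthogonal complement of `T (Wᗮ)` has at least the dimension of `W`. -/
def Good (W : Submodule ℂ ℋ) (T : ℋ →L[ℂ] ℋ) : Prop :=
  ∃ φ : W →ₗ[ℂ] ℋ, Function.Injective φ ∧ ∀ z, ∀ v ∈ Wᗮ, ⟪φ z, T v⟫_ℂ = 0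

theorem Good.step {W : Submodule ℂ ℋ} {T T' : ℋ →L[ℂ] ℋ} {c δ : ℝ} (hc : 0 < c)
    (hT : ∀ v ∈ Wᗮ, c * ‖v‖ ≤ ‖T v‖) (hδ : δ < c) (hδ0 : 0 ≤ δ)
    (hd : ∀ v ∈ Wᗮ, ‖T v - T' v‖ ≤ δ * ‖v‖) (h : Good W T') : Good W T := by
  obtain ⟨φ, hφi, hφ⟩ := h
  set U : Submodule ℂ ℋ := (Wᗮ.map (T : ℋ →ₗ[ℂ] ℋ)).topologicalClosure with hU
  have hUc : IsClosed (U : Set ℋ) := Submodule.isClosed_topologicalClosure _
  haveI : CompleteSpace U := hUc.completeSpace_coe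
  have hTU : ∀ v ∈ Wᗮ, T v ∈ U := by
    intro v hv
    exact Submodule.le_topologicalClosure _ (Submodule.mem_map_of_mem hv)
  refine ⟨(Uᗮ.starProjection : ℋ →ₗ[ℂ] ℋ) ∘ₗ φ, ?_, ?_⟩
  · rw [← LinearMap.ker_eq_bot, LinearMap.ker_eq_bot']
    intro z hz
    have h1 : Uᗮ.starProjection (φ z) = 0 := hz
    have h2 : φ z ∈ U := by
      have h3 : φ z ∈ Uᗮᗮ := by
        rw [← Submodule.starProjection_apply_eq_zero_iff]
        exact h1
      rwa [Submodule.orthogonal_orthogonal] at h3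
    set y := φ z with hy
    have h4 : ∀ η : ℝ, 0 < η → ‖y‖ ^ 2 ≤ ‖y‖ * η + ‖y‖ * ((δ / c) * (‖y‖ + η)) := by
      intro η hη
      have h5 : y ∈ closure ((Wᗮ.map (T : ℋ →ₗ[ℂ] ℋ) : Submodule ℂ ℋ) : Set ℋ) := h2
      obtain ⟨b, hb, hdist⟩ := Metric.mem_closure_iff.1 h5 η hη
      obtain ⟨v, hv, rfl⟩ := hb
      have hv' : v ∈ Wᗮ := hv
      have hTv : ((T : ℋ →ₗ[ℂ] ℋ) v) = T v := rfl
      rw [hTv, dist_eq_norm] at hdist
      have e1 : ‖v‖ ≤ (‖y‖ + η) / c := by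
        rw [le_div_iff₀ hc]
        have := hT v hv'
        have e2 : ‖T v‖ ≤ ‖y‖ + η := by
          have := norm_sub_norm_le (T v) y
          rw [norm_sub_rev] at this
          linarith
        linarith
      have e3 : ⟪y, y⟫_ℂ = ⟪y, y - T v⟫_ℂ + ⟪y, T v - T' v⟫_ℂ := by
        have := hφ z v hv'
        rw [inner_sub_right, inner_sub_right, this]
        ring
      have e4 : ‖⟪y, y⟫_ℂ‖ ≤ ‖y‖ * η + ‖y‖ * (δ * ‖v‖) := by
        rw [e3]
        refine (norm_add_le _ _).trans ?_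
        refine add_le_add ?_ ?_
        · refine (norm_inner_le_norm _ _).trans ?_
          gcongr
        · refine (norm_inner_le_norm _ _).trans ?_
          gcongr
          exact hd v hv'
      rw [← inner_self_re' y]
      calc (⟪y, y⟫_ℂ).re ≤ ‖⟪y, y⟫_ℂ‖ := Complex.re_le_norm _
        _ ≤ ‖y‖ * η + ‖y‖ * (δ * ‖v‖) := e4
        _ ≤ ‖y‖ * η + ‖y‖ * (δ * ((‖y‖ + η) / c)) := by gcongr
        _ = ‖y‖ * η + ‖y‖ * ((δ / c) * (‖y‖ + η)) := by ring
    have hy0 : y = 0 := by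
      by_contra hne
      have hpos : 0 < ‖y‖ := norm_pos_iff.2 hne
      set ρ := δ / c with hρ
      have hρ1 : ρ < 1 := (div_lt_one hc).2 hδ
      have hρ0 : 0 ≤ ρ := by positivity
      have := h4 ((1 - ρ) * ‖y‖ / 4) (by have : 0 < 1 - ρ := by linarith
                                         positivity)
      have h6 : ‖y‖ ^ 2 * ((1 - ρ) * (3 - ρ)) ≤ 0 := by nlinarith
      have h7 : 0 < ‖y‖ ^ 2 * ((1 - ρ) * (3 - ρ)) := by
        have a1 : 0 < 1 - ρ := by linarith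
        have a2 : 0 < 3 - ρ := by linarith
        positivity
      linarith
    apply hφi
    rw [map_zero]
    exact hy0
  · intro z v hv
    have h1 : Uᗮ.starProjection (φ z) ∈ Uᗮ := Submodule.starProjection_apply_mem _ _
    have := (Submodule.mem_orthogonal _ _).1 h1 (T v) (hTU v hv)
    show ⟪Uᗮ.starProjection (φ z), T v⟫_ℂ = 0
    rw [← inner_conj_symm, this, map_zero]

theorem Good.path {W : Submodule ℂ ℋ} {F : ℝ → ℋ →L[ℂ] ℋ} {c L : ℝ} (hc : 0 < c) (hL : 0 ≤ L)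
    (hF : ∀ t, 0 ≤ t → t ≤ 1 → ∀ v ∈ Wᗮ, c * ‖v‖ ≤ ‖F t v‖)
    (hlip : ∀ t t', ‖F t - F t'‖ ≤ L * |t - t'|) (h : Good W (F 0)) : Good W (F 1) := by
  obtain ⟨n, hn⟩ := exists_nat_gt (L / c)
  have hn0 : 0 < n := by
    rcases Nat.eq_zero_or_pos n with h0 | h0
    · subst h0
      have : 0 ≤ L / c := by positivity
      simp at hn
      linarith
    · exact h0
  have hn' : (0:ℝ) < n := by exact_mod_cast hn0
  have key : ∀ k : ℕ, k ≤ n → Good W (F (k / n)) := by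
    intro k
    induction k with
    | zero => intro _; simpa using h
    | succ k ih =>
      intro hk
      have hk' : (k : ℝ) + 1 ≤ n := by exact_mod_cast hk
      refine Good.step (c := c) (δ := L * (1 / n)) (T' := F (k / n)) hc ?_ ?_ (by positivity) ?_
        (ih (by omega))
      · apply hF
        · positivity
        · rw [div_le_one hn']; push_cast; linarith
      · rw [mul_one_div, div_lt_iff₀ hn']
        rw [div_lt_iff₀ hc] at hn
        linarith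
      · intro v _
        rw [← ContinuousLinearMap.sub_apply]
        refine (ContinuousLinearMap.le_opNorm _ _).trans ?_
        gcongr
        refine (hlip _ _).trans ?_
        gcongr
        push_cast
        rw [← sub_div, add_sub_cancel_left, abs_of_nonneg (by positivity)]
  have := key n le_rfl
  rwa [div_self hn'.ne'] at this

theorem Good.start {W : Submodule ℂ ℋ} {T : ℋ →L[ℂ] ℋ} {c : ℝ} (hc : 0 < c)
    (hT : ∀ v, c * ‖v‖ ^ 2 ≤ ‖T v‖ ^ 2) : Good W T := by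
  have hu : IsUnit (star T * T) := by
    refine ContinuousLinearMap.isUnit_of_forall_le_norm_inner_map _ (c := ⟨c, hc.le⟩) hc ?_
    intro x
    rw [ContinuousLinearMap.mul_apply, star_inner_left]
    have h1 : ‖T x‖ ^ 2 ≤ ‖⟪T x, T x⟫_ℂ‖ := by
      rw [← inner_self_re']; exact Complex.re_le_norm _
    have h2 := hT x
    show ‖x‖ ^ 2 * c ≤ _
    linarith
  obtain ⟨M, hM⟩ := hu
  have hM1 : ∀ z, star T (T ((↑M⁻¹ : ℋ →L[ℂ] ℋ) z)) = z := by
    intro z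
    have := congrArg (fun A : ℋ →L[ℂ] ℋ => A z) (Units.mul_inv M)
    rw [hM] at this
    simpa using this
  refine ⟨((T * (↑M⁻¹ : ℋ →L[ℂ] ℋ) : ℋ →L[ℂ] ℋ) : ℋ →ₗ[ℂ] ℋ) ∘ₗ W.subtype, ?_, ?_⟩
  · intro z z' hz
    have hz1 : T ((↑M⁻¹ : ℋ →L[ℂ] ℋ) (z : ℋ)) = T ((↑M⁻¹ : ℋ →L[ℂ] ℋ) (z' : ℋ)) := hz
    have : star T (T ((↑M⁻¹ : ℋ →L[ℂ] ℋ) (z : ℋ))) = star T (T ((↑M⁻¹ : ℋ →L[ℂ] ℋ) (z' : ℋ))) := by
      rw [hz1]
    rw [hM1, hM1] at this
    exact Subtype.ext this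
  · intro z v hv
    show ⟪T ((↑M⁻¹ : ℋ →L[ℂ] ℋ) (z : ℋ)), T v⟫_ℂ = 0
    rw [← star_inner_left, hM1]
    exact (Submodule.mem_orthogonal _ _).1 hv _ z.2

theorem Good.final {W : Submodule ℂ ℋ} [FiniteDimensional ℂ W] {T : ℋ →L[ℂ] ℋ} {k w : ℋ}
    (hk : T k = 0) (hinj : ∀ y, star T y = 0 → y = 0) (hw : w ∈ W) (hkw : ⟪k, w⟫_ℂ ≠ 0) :
    ¬ Good W T := by
  rintro ⟨φ, hφi, hφ⟩
  have hmem : ∀ z : W, star T (φ z) ∈ W := by
    intro z
    have h0 : star T (φ z) ∈ Wᗮᗮ → star T (φ z) ∈ W := by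
      rw [Submodule.orthogonal_orthogonal]; exact id
    apply h0
    rw [Submodule.mem_orthogonal]
    intro v hv
    rw [star_inner_right, ← inner_conj_symm, hφ z v hv, map_zero]
  set Ψ : W →ₗ[ℂ] W := LinearMap.codRestrict W (((star T : ℋ →L[ℂ] ℋ) : ℋ →ₗ[ℂ] ℋ) ∘ₗ φ) hmem
    with hΨ
  have hΨi : Function.Injective Ψ := by
    rw [← LinearMap.ker_eq_bot, LinearMap.ker_eq_bot']
    intro z hz
    have h1 : star T (φ z) = 0 := congrArg Subtype.val hz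
    have h2 := hinj _ h1
    apply hφi
    rw [map_zero]; exact h2
  obtain ⟨z, hz⟩ := (LinearMap.injective_iff_surjective.1 hΨi) ⟨w, hw⟩
  have h1 : star T (φ z) = w := congrArg Subtype.val hz
  apply hkw
  rw [← h1, star_inner_right, hk, inner_zero_left]

end Pool.Agent.Helper172.WvN
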