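import Mathlib
import Pool.Agent.Helper172.WvN.Chain
set_option autoImplicit false
set_option linter.all false
open Complex
open scoped InnerProductSpace NNReal

namespace Pool.Agent.Helper172.WvN

variable {ℋ : Type*} [NormedAddCommGroup ℋ] [InnerProductSpace ℂ ℋ] [CompleteSpace ℋ]
variable {R S G : ℋ →L[ℂ] ℋ} {w : ℋ}

theorem app {A A' : ℋ →L[ℂ] ℋ} (h : A = A') (x : ℋ) : A x = A' x := by rw [h]

theorem w_facts (s : Sys R S G w) :
    star R w = 0 ∧ star S w = 0 ∧ ⟪w, w⟫_ℂ = 1 := by
  have r := s.rel
  have hww : ⟪w, w⟫_ℂ = 1 := by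
    rw [inner_self_eq_norm_sq_to_K, s.hw]; simp
  have h1 : cE R (star R) (cP S (star S) w) = w := by
    rw [s.EP, hww, one_smul]
  refine ⟨?_, ?_, hww⟩
  · rw [← h1]
    have := app (R'E r) (cP S (star S) w)
    simpa using this
  · rw [← h1]
    have h2 : star S * (cE R (star R) * cP S (star S)) = 0 := by
      simp only [cE, cP, mul_sub, sub_mul, mul_one, one_mul, mul_assoc, r.SSa, r.RS'a, r.R'S'a,
        r.RS', r.R'S']
      abel
    have := app h2 w
    simpa using this

/-- vectors orthogonal to the first `m` corner vectors -/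
theorem P_le (s : Sys R S G w) (m : ℕ) (x : ℋ)
    (hx : ∀ j < m, ⟪(R ^ j) w, x⟫_ℂ = 0) : ‖cP S (star S) x‖ ≤ ‖(star R ^ m) x‖ := by
  have r := s.rel
  have hcomm : ∀ j : ℕ, (star R ^ j) * cP S (star S) = cP S (star S) * star R ^ j := by
    intro j
    have : Commute (star R) (cP S (star S)) := by
      show star R * cP S (star S) = cP S (star S) * star R
      simp only [cP, mul_sub, sub_mul, mul_one, one_mul, mul_assoc, r.R'S, r.R'S', r.R'Sa]
    exact (this.pow_left j)
  have hstar : ∀ j : ℕ, star (R ^ j) = star R ^ j := fun j => star_pow R j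
  have key : ∀ j ≤ m, cP S (star S) x = (R ^ j) ((star R ^ j) (cP S (star S) x)) := by
    intro j
    induction j with
    | zero => intro _; simp
    | succ j ih =>
      intro hj
      have h1 := ih (by omega)
      have h2 : cE R (star R) ((star R ^ j) (cP S (star S) x)) = 0 := by
        have e1 := app (hcomm j) x
        simp only [ContinuousLinearMap.mul_apply] at e1
        rw [e1, s.EP, ← hstar, star_inner_right, hx j (by omega), zero_smul]
      have h3 : (star R ^ j) (cP S (star S) x)
          = R (star R ((star R ^ j) (cP S (star S) x))) := by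
        have : (star R ^ j) (cP S (star S) x)
          - R (star R ((star R ^ j) (cP S (star S) x))) = 0 := by
          rw [← h2]; simp [cE]
        exact sub_eq_zero.1 this
      rw [pow_succ R, pow_succ' (star R), ContinuousLinearMap.mul_apply,
        ContinuousLinearMap.mul_apply, ← h3, ← h1]
  have h1 := key m le_rfl
  have hRm : ∀ y, ‖(R ^ m) y‖ = ‖y‖ := by
    intro y
    apply iso_norm
    rw [hstar]
    clear key h1 hx
    induction m with
    | zero => simp
    | succ m ih => rw [pow_succ (star R), pow_succ' R, mul_assoc, ← mul_assoc (star R), r.RR, one_mul, ih]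
  calc ‖cP S (star S) x‖ = ‖(R ^ m) ((star R ^ m) (cP S (star S) x))‖ := by rw [← h1]
    _ = ‖(star R ^ m) (cP S (star S) x)‖ := hRm _
    _ = ‖cP S (star S) ((star R ^ m) x)‖ := by
      have e1 := app (hcomm m) x
      simp only [ContinuousLinearMap.mul_apply] at e1
      rw [e1]
    _ ≤ ‖(star R ^ m) x‖ := by
      set y := (star R ^ m) x
      have h2 := proj_norm (star_P (S := S)) (PP r) y
      have h3 : (⟪y, cP S (star S) y⟫_ℂ).re ≤ ‖y‖ * ‖cP S (star S) y‖ :=
        (Complex.re_le_norm _).trans (norm_inner_le_norm _ _)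
      rw [h2] at h3
      rcases (norm_nonneg (cP S (star S) y)).eq_or_lt with h4 | h4
      · rw [← h4]; exact norm_nonneg _
      · nlinarith

theorem star_B (r : Rel R (star R) S (star S) G) :
    star (cB R (star R) S (star S)) = cB R (star R) S (star S) := by
  have e1 : ∀ M : ℋ →L[ℂ] ℋ, M * cX S (star S) = cX S (star S) * M →
      M * cb S (star S) = cb S (star S) * M := by
    intro M hM
    simp only [cb, mul_smul_comm, smul_mul_assoc, mul_sub, sub_mul, mul_one, one_mul, hM]
  simp only [cB, star_add, star_mul, star_star, star_b, star_E]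
  have hRX := RX r
  have hR'X : star R * cX S (star S) = cX S (star S) * star R := by
    simp only [cX, mul_sub, sub_mul, smul_mul_assoc, mul_smul_comm, r.R'S, r.R'S']
  have hEX := EX r
  rw [e1 (R * (cE R (star R) * (star R * star R))), e1 (R * (R * (cE R (star R) * star R)))]
  · simp only [mul_assoc]
    rw [add_comm]
  · simp only [mul_assoc]
    rw [hR'X, ← mul_assoc (cE R (star R)), hEX, mul_assoc, ← mul_assoc R (cX S (star S)), hRX,
      mul_assoc, ← mul_assoc R (cX S (star S)), hRX, mul_assoc]
  · simp only [mul_assoc]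
    rw [hR'X, ← mul_assoc (star R) (cX S (star S)), hR'X, mul_assoc,
      ← mul_assoc (cE R (star R)), hEX, mul_assoc, ← mul_assoc R (cX S (star S)), hRX,
      mul_assoc]

theorem star_T1 (s : Sys R S G w) :
    star (cT1 R (star R) S (star S) G) = cT1' R (star R) S (star S) G := by
  have h1 := star_h s
  have h2 := star_B s.rel
  have h3 := star_E (R := R)
  unfold cT1 cT1'
  rw [star_add, star_sub, star_smul, star_sub, star_sub, star_one, h1, h2, h3]
  rw [sub_eq_add_neg _ ((I/2 : ℂ) • _), ← neg_smul]
  congr 2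
  simp
  ring

theorem T1_inj (s : Sys R S G w) (y : ℋ) (hy : cT1' R (star R) S (star S) G y = 0) : y = 0 := by
  have r := s.rel
  -- s_+
  have e1 := app (inj1 r) y
  simp only [ContinuousLinearMap.mul_apply, hy, map_zero] at e1
  have e2 := app (inj2 r) y
  simp only [ContinuousLinearMap.mul_apply, hy, map_zero] at e2
  set sp := (cE R (star R) + I • (cE R (star R) * star R)) y with hsp
  set sm := (cE R (star R) - I • (cE R (star R) * star R)) y with hsm
  have hsp0 : sp = 0 := by
    have h1 : ((3 : ℂ) • S + star S) sp = 0 := by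
      have : (-I/4 : ℂ) • ((3 : ℂ) • S + star S) sp = 0 := e1.symm
      rcases smul_eq_zero.1 this with h | h
      · exfalso; simp at h
      · exact h
    simp only [ContinuousLinearMap.add_apply, ContinuousLinearMap.smul_apply] at h1
    have h2 : (3 : ℂ) • S sp = - star S sp := eq_neg_of_add_eq_zero_left h1
    have h3 : 3 * ‖sp‖ ≤ ‖sp‖ := by
      calc 3 * ‖sp‖ = ‖(3 : ℂ) • S sp‖ := by rw [norm_smul, iso_norm r.SS]; norm_num
        _ = ‖star S sp‖ := by rw [h2, norm_neg]
        _ ≤ ‖sp‖ := iso_star_norm r.SS _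
    have : ‖sp‖ ≤ 0 := by linarith [norm_nonneg sp]
    exact norm_le_zero_iff.1 this
  have hsm0 : sm = 0 := by
    have h1 : (ca S (star S) + I • cC S (star S) + (1/2 : ℂ) • 1) sm = 0 := e2.symm
    have h2 : (⟪sm, (ca S (star S) + I • cC S (star S) + (1/2 : ℂ) • 1) sm⟫_ℂ).re = 0 := by
      rw [h1, inner_zero_right]; rfl
    simp only [ContinuousLinearMap.add_apply, ContinuousLinearMap.smul_apply,
      ContinuousLinearMap.one_apply] at h2
    rw [inner_add_right, inner_add_right, inner_smul_right, inner_smul_right] at h2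
    have h3 : (⟪sm, cC S (star S) sm⟫_ℂ).im = 0 := by
      have : ⟪sm, cC S (star S) sm⟫_ℂ = (starRingEnd ℂ) ⟪sm, cC S (star S) sm⟫_ℂ := by
        rw [inner_conj_symm]
        conv_lhs => rw [← star_C (S := S), star_inner_right]
      exact (Complex.conj_eq_iff_im.1 this.symm)
    have h4 := a_nonneg r sm
    have h5 := inner_self_re' sm
    have h6 : ((1/2 : ℂ) * ⟪sm, sm⟫_ℂ).re = (1/2) * ‖sm‖ ^ 2 := by
      rw [← h5]; simp
    rw [Complex.add_re, Complex.add_re, h6] at h2
    simp only [Complex.mul_re, I_re, I_im, h3] at h2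
    have h7 : ‖sm‖ ^ 2 ≤ 0 := by nlinarith
    have h8 : ‖sm‖ = 0 := by nlinarith [norm_nonneg sm]
    exact norm_eq_zero.1 h8
  have hE : cE R (star R) y = 0 := by
    have h1 : (2 : ℂ) • cE R (star R) y = sp + sm := by
      simp only [hsp, hsm, ContinuousLinearMap.add_apply, ContinuousLinearMap.sub_apply,
        ContinuousLinearMap.smul_apply]
      module
    rw [hsp0, hsm0, add_zero] at h1
    rcases smul_eq_zero.1 h1 with h | h
    · exfalso; norm_num at h
    · exact h
  have h1 : (ch R (star R) S (star S) G - cB R (star R) S (star S)) y = (I/2 : ℂ) • y := by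
    have : cT1' R (star R) S (star S) G y = (ch R (star R) S (star S) G
        - cB R (star R) S (star S)) y - (I/2 : ℂ) • y := by
      simp only [cT1', ContinuousLinearMap.sub_apply, ContinuousLinearMap.smul_apply,
        ContinuousLinearMap.one_apply, hE, sub_zero]
    rw [this] at hy
    exact sub_eq_zero.1 hy
  have hsa : star (ch R (star R) S (star S) G - cB R (star R) S (star S))
      = ch R (star R) S (star S) G - cB R (star R) S (star S) := by
    rw [star_sub, star_h s, star_B r]
  set T := ch R (star R) S (star S) G - cB R (star R) S (star S) with hT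
  have h3 : (⟪y, T y⟫_ℂ).im = 0 := by
    have : ⟪y, T y⟫_ℂ = (starRingEnd ℂ) ⟪y, T y⟫_ℂ := by
      rw [inner_conj_symm]
      conv_lhs => rw [← hsa, star_inner_right]
    exact (Complex.conj_eq_iff_im.1 this.symm)
  rw [h1, inner_smul_right] at h3
  have h5 := inner_self_re' y
  have h6 : ((I/2 : ℂ) * ⟪y, y⟫_ℂ).im = (1/2) * ‖y‖ ^ 2 := by
    rw [← h5]; simp [Complex.mul_im]
  rw [h6] at h3
  have h8 : ‖y‖ = 0 := by nlinarith [norm_nonneg y]
  exact norm_eq_zero.1 h8

theorem T1_ker (s : Sys R S G w) :
    ∃ k : ℋ, cT1 R (star R) S (star S) G k = 0 ∧ ⟪k, w⟫_ℂ ≠ 0 := by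
  have r := s.rel
  obtain ⟨hRw, hSw, hww⟩ := w_facts s
  have hn : ‖(-(1/3 : ℂ)) • (S * S)‖ < 1 := by
    rw [norm_smul]
    have h1 : ‖S * S‖ ≤ 1 := by
      calc ‖S * S‖ ≤ ‖S‖ * ‖S‖ := norm_mul_le _ _
        _ ≤ 1 * 1 := by
          gcongr
          · exact iso_norm_le r.SS
          · exact iso_norm_le r.SS
        _ = 1 := one_mul _
    have h2 : ‖(-(1/3 : ℂ))‖ = 1/3 := by rw [norm_neg]; norm_num
    rw [h2]
    nlinarith [norm_nonneg (S * S)]
  obtain ⟨M, hM⟩ := isUnit_one_sub_of_norm_lt_one hn
  set v : ℋ := (↑M⁻¹ : ℋ →L[ℂ] ℋ) w with hv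
  have hMv : v + (1/3 : ℂ) • S (S v) = w := by
    have h1 := app (Units.mul_inv M) w
    rw [hM] at h1
    simp only [ContinuousLinearMap.mul_apply, ContinuousLinearMap.sub_apply,
      ContinuousLinearMap.one_apply, ContinuousLinearMap.smul_apply] at h1
    rw [neg_smul, sub_neg_eq_add] at h1
    exact h1
  have hSS : ∀ x, star S (S x) = x := fun x => by
    have := app r.SS x
    simpa using this
  have hR'v : star R v = 0 := by
    have h1 : star R v + (1/3 : ℂ) • S (S (star R v)) = 0 := by
      have h2 : star R (v + (1/3 : ℂ) • S (S v)) = 0 := by rw [hMv, hRw]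
      rw [map_add, map_smul] at h2
      have h3 : star R (S (S v)) = S (S (star R v)) := by
        have e1 := app r.R'S
        simp only [ContinuousLinearMap.mul_apply] at e1
        rw [← e1, ← e1]
      rw [h3] at h2
      exact h2
    have h2 : star R v = -((1/3 : ℂ) • S (S (star R v))) := eq_neg_of_add_eq_zero_left h1
    have h3 : ‖star R v‖ ≤ (1/3) * ‖star R v‖ := by
      calc ‖star R v‖ = ‖-((1/3 : ℂ) • S (S (star R v)))‖ := by rw [← h2]
        _ = (1/3) * ‖star R v‖ := by
          rw [norm_neg, norm_smul, iso_norm r.SS, iso_norm r.SS]; norm_num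
        _ ≤ _ := le_rfl
    have : ‖star R v‖ ≤ 0 := by linarith [norm_nonneg (star R v)]
    exact norm_le_zero_iff.1 this
  have hEv : cE R (star R) v = v := by
    simp [cE, hR'v]
  have hSv : (S + (3 : ℂ) • star S) v = 0 := by
    have h1 : star S (v + (1/3 : ℂ) • S (S v)) = 0 := by rw [hMv, hSw]
    rw [map_add, map_smul, hSS] at h1
    simp only [ContinuousLinearMap.add_apply, ContinuousLinearMap.smul_apply]
    have h2 : S v + (3 : ℂ) • star S v = (3 : ℂ) • (star S v + (1/3 : ℂ) • S v) := by
      rw [smul_add, smul_smul]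
      norm_num
      abel
    rw [h2, h1, smul_zero]
  refine ⟨v + I • R v, ?_, ?_⟩
  · have h1 := app (kerT1 r) v
    simp only [ContinuousLinearMap.mul_apply] at h1
    have h2 : (1 + I • R) (cE R (star R) v) = v + I • R v := by
      rw [hEv]; simp
    rw [h2] at h1
    rw [h1]
    have h3 : ((I/4 : ℂ) • (S + (3:ℂ) • star S)) v = 0 := by
      rw [ContinuousLinearMap.smul_apply, hSv, smul_zero]
    rw [h3, map_zero, map_zero]
  · have h1 : ⟪w, v⟫_ℂ = 1 := by
      have h2 : v = w - (1/3 : ℂ) • S (S v) := by rw [← hMv]; abel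
      rw [h2, inner_sub_right, inner_smul_right, hww, ← star_inner_left, hSw, inner_zero_left]
      ring
    have h2 : ⟪v, w⟫_ℂ = 1 := by
      rw [← inner_conj_symm, h1, map_one]
    rw [inner_add_left, inner_smul_left, h2, ← star_inner_right, hRw, inner_zero_right]
    simp

theorem mul_norm_le_of_sq {c : ℝ} {x y : ℝ} (hc : 0 ≤ c) (hx : 0 ≤ x) (hy : 0 ≤ y)
    (h : c ^ 2 * x ^ 2 ≤ y ^ 2) : c * x ≤ y := by
  have : (c * x) ^ 2 ≤ y ^ 2 := by rw [mul_pow]; exact h
  exact (sq_le_sq₀ (by positivity) hy).1 this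

/-- The obstruction: no projection which cuts off finitely many blocks, contains block `0`,
almost commutes with `h`. -/
theorem obstruction (s : Sys R S G w) {p : ℋ →L[ℂ] ℋ} (hp1 : star p = p) (hp2 : p * p = p)
    (hε : ∀ x, ‖(p * ch R (star R) S (star S) G - ch R (star R) S (star S) G * p) x‖
      ≤ (1/100) * ‖x‖)
    (hδ1 : ∀ x, ‖cE R (star R) (x - p x)‖ ≤ (1/100) * ‖x‖) (m : ℕ) (hm : 3 ≤ m)
    (hδ2 : ∀ x, ‖(star R ^ m) (p x)‖ ≤ (1/100) * ‖x‖) : False := by
  have r := s.rel
  set W : Submodule ℂ ℋ := Submodule.span ℂ (Set.range (fun j : Fin m => (R ^ (j:ℕ)) w)) with hW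
  haveI : FiniteDimensional ℂ W := FiniteDimensional.span_of_finite ℂ (Set.finite_range _)
  have hV : ∀ x ∈ Wᗮ, ‖cP S (star S) x‖ ≤ ‖(star R ^ m) x‖ := by
    intro x hx
    apply P_le s m x
    intro j hj
    exact (Submodule.mem_orthogonal _ _).1 hx _ (Submodule.subset_span ⟨⟨j, hj⟩, rfl⟩)
  have hw : w ∈ W := Submodule.subset_span ⟨⟨0, by omega⟩, by simp⟩
  -- start
  have g1 : Good W (ch R (star R) S (star S) G + I • cY R p 1) := by
    refine Good.start (c := 1/5) (by norm_num) ?_
    intro x
    have hY : cY R p 1 = (1/2 : ℂ) • (1 - p - p) := by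
      simp [cY]
    rw [hY, cross (star_h s) (refl_star hp1), refl_norm hp1 hp2]
    have h3 : ch R (star R) S (star S) G * ((1/2 : ℂ) • (1 - p - p))
        - ((1/2 : ℂ) • (1 - p - p)) * ch R (star R) S (star S) G
        = p * ch R (star R) S (star S) G - ch R (star R) S (star S) G * p := by
      simp only [smul_mul_assoc, mul_smul_comm, mul_sub, sub_mul, mul_one, one_mul]
      module
    rw [h3]
    have c2 : -((1/100) * ‖x‖ ^ 2) ≤
        (I * ⟪x, (p * ch R (star R) S (star S) G - ch R (star R) S (star S) G * p) x⟫_ℂ).re := by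
      have : ‖I * ⟪x, (p * ch R (star R) S (star S) G - ch R (star R) S (star S) G * p) x⟫_ℂ‖
          ≤ (1/100) * ‖x‖ ^ 2 := by
        rw [norm_mul, norm_I, one_mul]
        calc ‖⟪x, (p * ch R (star R) S (star S) G - ch R (star R) S (star S) G * p) x⟫_ℂ‖
            ≤ ‖x‖ * ‖(p * ch R (star R) S (star S) G - ch R (star R) S (star S) G * p) x‖ :=
              norm_inner_le_norm _ _
          _ ≤ ‖x‖ * ((1/100) * ‖x‖) := by gcongr; exact hε x
          _ = (1/100) * ‖x‖ ^ 2 := by ring
      exact (abs_le.1 ((Complex.abs_re_le_norm _).trans this)).1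
    have c4 : 0 ≤ ‖ch R (star R) S (star S) G x‖ ^ 2 := by positivity
    nlinarith [sq_nonneg ‖x‖]
  -- path 1
  have g2 : Good W (cT0 R (star R) S (star S) G) := by
    have h1 := Good.path (W := W)
      (F := fun t => ch R (star R) S (star S) G + I • cY R p (1 - t)) (c := 1/5)
      (L := ‖((1/2 : ℂ) • (1 - cE R (star R) - cE R (star R))) - ((1/2 : ℂ) • (1 - p - p))‖)
      (by norm_num) (norm_nonneg _) ?_ ?_ ?_
    · have e : cY R p (1 - 1) = (1/2 : ℂ) • (1 - cE R (star R) - cE R (star R)) := by
        simp [cY]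
      simp only [e] at h1
      rw [T0_eq]
      exact h1
    · intro t ht0 ht1 v hv
      apply mul_norm_le_of_sq (by norm_num) (norm_nonneg _) (norm_nonneg _)
      have := path1 s hp1 hp2 hε hδ1 m (by omega) hδ2 v (hV v hv) (1 - t) (by linarith)
        (by linarith)
      nlinarith [sq_nonneg ‖v‖]
    · intro t t'
      have e : (ch R (star R) S (star S) G + I • cY R p (1 - t))
          - (ch R (star R) S (star S) G + I • cY R p (1 - t'))
          = (I * ((t - t' : ℝ) : ℂ)) • (((1/2 : ℂ) • (1 - cE R (star R) - cE R (star R)))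
              - ((1/2 : ℂ) • (1 - p - p))) := by
        simp only [cY]
        push_cast
        module
      rw [e, norm_smul, norm_mul, norm_I, one_mul, Complex.norm_real, Real.norm_eq_abs, mul_comm]
    · simpa using g1
  -- path 2
  have g3 : Good W (cT1 R (star R) S (star S) G) := by
    have h1 := Good.path (W := W)
      (F := fun t => cT0 R (star R) S (star S) G - (t : ℂ) • cB R (star R) S (star S)) (c := 1/2)
      (L := ‖cB R (star R) S (star S)‖)
      (by norm_num) (norm_nonneg _) ?_ ?_ ?_
    · have e : cT0 R (star R) S (star S) G - ((1:ℝ) : ℂ) • cB R (star R) S (star S)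
          = cT1 R (star R) S (star S) G := by
        simp only [cT0, cT1, Complex.ofReal_one, one_smul]
        abel
      simp only [e] at h1
      exact h1
    · intro t ht0 ht1 v hv
      apply mul_norm_le_of_sq (by norm_num) (norm_nonneg _) (norm_nonneg _)
      have hle : ‖(star R ^ m) v‖ ≤ ‖star R (star R (star R v))‖ := by
        obtain ⟨k, rfl⟩ := Nat.exists_eq_add_of_le' hm
        rw [pow_succ, pow_succ, pow_succ, ContinuousLinearMap.mul_apply,
          ContinuousLinearMap.mul_apply, ContinuousLinearMap.mul_apply]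
        exact star_pow_norm_le r k _
      have := path2 s v ((hV v hv).trans hle) t ht0 ht1
      norm_num at this ⊢
      exact this
    · intro t t'
      have e : (cT0 R (star R) S (star S) G - (t : ℂ) • cB R (star R) S (star S))
          - (cT0 R (star R) S (star S) G - (t' : ℂ) • cB R (star R) S (star S))
          = (((t' - t : ℝ)) : ℂ) • cB R (star R) S (star S) := by
        push_cast
        module
      rw [e, norm_smul, Complex.norm_real, Real.norm_eq_abs, abs_sub_comm, mul_comm]
    · simpa using g2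
  obtain ⟨k, hk, hkw⟩ := T1_ker s
  refine Good.final hk ?_ hw hkw g3
  intro y hy
  rw [star_T1 s] at hy
  exact T1_inj s y hy

end Pool.Agent.Helper172.WvN
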