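import Mathlib
import Pool.Agent.Helper172.WvN.Obs
set_option autoImplicit false
set_option linter.all false
open Complex Filter Topology
open scoped InnerProductSpace NNReal

namespace Pool.Agent.Helper172.WvN

variable {ℋ : Type*} [NormedAddCommGroup ℋ] [InnerProductSpace ℂ ℋ] [CompleteSpace ℋ]
variable {R S G : ℋ →L[ℂ] ℋ} {w : ℋ}

theorem spectral_cut (Z : ℋ →L[ℂ] ℋ) (hZ : star Z = Z) :
    ∃ p : ℋ →L[ℂ] ℋ, star p = p ∧ p * p = p ∧
      (∀ T : ℋ →L[ℂ] ℋ, star T = T → T * Z = Z * T → T * p = p * T) ∧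
      (∀ u, p u = u → (1/2) * ‖u‖ ^ 2 ≤ (⟪u, Z u⟫_ℂ).re) ∧
      (∀ u, p u = 0 → (⟪u, Z u⟫_ℂ).re ≤ (1/2) * ‖u‖ ^ 2) := by
  set D : ℋ →L[ℂ] ℋ := Z - (1/2 : ℂ) • 1 with hD
  have hDsa : IsSelfAdjoint D := by
    rw [isSelfAdjoint_iff, hD, star_sub, hZ, star_smul, star_one]
    congr 2
    simp
  set Y : ℋ →L[ℂ] ℋ := D⁺ with hY
  set Y' : ℋ →L[ℂ] ℋ := D⁻ with hY'
  have hYY' : Y * Y' = 0 := CFC.posPart_mul_negPart D
  have hsub : Y - Y' = D := CFC.posPart_sub_negPart D hDsa
  have hYnn : 0 ≤ Y := CFC.posPart_nonneg D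
  have hY'nn : 0 ≤ Y' := CFC.negPart_nonneg D
  have hYsa : star Y = Y := (IsSelfAdjoint.of_nonneg hYnn).star_eq
  have hY'sa : star Y' = Y' := (IsSelfAdjoint.of_nonneg hY'nn).star_eq
  have hYpos : ∀ u, 0 ≤ (⟪u, Y u⟫_ℂ).re := by
    intro u
    have := (ContinuousLinearMap.nonneg_iff_isPositive Y).1 hYnn
    exact this.re_inner_nonneg_right u
  have hY'pos : ∀ u, 0 ≤ (⟪u, Y' u⟫_ℂ).re := by
    intro u
    have := (ContinuousLinearMap.nonneg_iff_isPositive Y').1 hY'nn
    exact this.re_inner_nonneg_right u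
  set U : Submodule ℂ ℋ := LinearMap.ker (Y : ℋ →ₗ[ℂ] ℋ) with hU
  have hUc : IsClosed (U : Set ℋ) := ContinuousLinearMap.isClosed_ker Y
  haveI : CompleteSpace U := hUc.completeSpace_coe
  have hmemU : ∀ x, x ∈ U ↔ Y x = 0 := fun x => LinearMap.mem_ker
  set P : ℋ →L[ℂ] ℋ := U.starProjection with hP
  have hPsa : star P = P := (isSelfAdjoint_starProjection U).star_eq
  have hPP : P * P = P := (Submodule.isIdempotentElem_starProjection U).eq
  have hPu : ∀ u, P u = u ↔ u ∈ U := fun u => Submodule.starProjection_eq_self_iff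
  have hPmem : ∀ u, P u ∈ U := fun u => Submodule.starProjection_apply_mem U u
  have hZe : ∀ u, Z u = (1/2 : ℂ) • u + (Y u - Y' u) := by
    intro u
    have : Y u - Y' u = D u := by rw [← ContinuousLinearMap.sub_apply, hsub]
    rw [this, hD]
    simp
  have hre : ∀ u, (⟪u, Z u⟫_ℂ).re = (1/2) * ‖u‖ ^ 2 + (⟪u, Y u⟫_ℂ).re - (⟪u, Y' u⟫_ℂ).re := by
    intro u
    rw [hZe, inner_add_right, inner_smul_right, inner_sub_right, Complex.add_re, Complex.sub_re,
      ← inner_self_re' u]
    simp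
    ring
  refine ⟨1 - P, ?_, ?_, ?_, ?_, ?_⟩
  · rw [star_sub, star_one, hPsa]
  · simp only [mul_sub, sub_mul, mul_one, one_mul, hPP]; abel
  · intro T hT hTZ
    have hTD : Commute T D := by
      show T * D = D * T
      rw [hD, mul_sub, sub_mul, hTZ, mul_smul_comm, smul_mul_assoc, mul_one, one_mul]
    have hTY : T * Y = Y * T := by
      have : Commute D T := hTD.symm
      exact ((this.cfcₙ_real _).symm)
    have hTU : ∀ u ∈ U, T u ∈ U := by
      intro u hu
      rw [hmemU] at hu ⊢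
      have := app hTY u
      simp only [ContinuousLinearMap.mul_apply, hu, map_zero] at this
      exact this.symm
    -- P T P = T P
    have h1 : P * (T * P) = T * P := by
      ext x
      simp only [ContinuousLinearMap.mul_apply]
      exact (hPu _).2 (hTU _ (hPmem x))
    have h2 : P * T * P = P * T := by
      have := congrArg star h1
      simp only [star_mul, hPsa, hT] at this
      rw [this]
    have h3 : T * P = P * T := by
      rw [← h1, ← mul_assoc, h2]
    rw [mul_sub, sub_mul, mul_one, one_mul, h3]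
  · intro u hu
    have h1 : P u = 0 := by
      have : u - P u = u := by simpa using hu
      simpa using this
    have h2 : Y' u = 0 := by
      have h3 : ∀ x, ⟪x, Y' u⟫_ℂ = 0 := by
        intro x
        rw [← hY'sa, star_inner_right]
        have h4 : Y' x ∈ U := by
          rw [hmemU]
          have := app hYY' x
          simpa using this
        have h5 : P (Y' x) = Y' x := (hPu _).2 h4
        rw [← h5, ← hPsa, star_inner_left, h1, inner_zero_right]
      exact inner_self_eq_zero.1 (h3 _)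
    rw [hre, h2, inner_zero_right]
    have := hYpos u
    simp
    exact this
  · intro u hu
    have h1 : P u = u := by
      have : u - P u = 0 := by simpa using hu
      exact (sub_eq_zero.1 this).symm
    have h2 : Y u = 0 := (hmemU u).1 ((hPu u).1 h1)
    rw [hre, h2, inner_zero_right]
    have := hY'pos u
    simp
    exact this

/-- spectral projections of a self-adjoint operator with finite spectrum -/
noncomputable def sp (g : ℋ →L[ℂ] ℋ) (l : ℂ) : ℋ →L[ℂ] ℋ :=
  cfc (fun z : ℂ => if z = l then (1 : ℂ) else 0) g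

theorem sp_star (g : ℋ →L[ℂ] ℋ) (l : ℂ) : star (sp g l) = sp g l := by
  rw [sp, ← cfc_star]
  congr 1
  ext z
  split_ifs <;> simp

theorem sp_mul (g : ℋ →L[ℂ] ℋ) (hfin : (spectrum ℂ g).Finite) (l : ℂ) :
    sp g l * sp g l = sp g l := by
  rw [sp, ← cfc_mul _ _ g (hfin.continuousOn _) (hfin.continuousOn _)]
  congr 1
  ext z
  split_ifs <;> simp

theorem sp_orth (g : ℋ →L[ℂ] ℋ) (hfin : (spectrum ℂ g).Finite) {l l' : ℂ} (h : l ≠ l') :
    sp g l * sp g l' = 0 := by
  rw [sp, sp, ← cfc_mul _ _ g (hfin.continuousOn _) (hfin.continuousOn _)]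
  rw [← cfc_const_zero ℂ g]
  congr 1
  ext z
  by_cases h1 : z = l
  · have h2 : z ≠ l' := fun h3 => h (h1.symm.trans h3)
    simp [h2]
  · simp [h1]

theorem sp_sum (g : ℋ →L[ℂ] ℋ) (hg : IsStarNormal g) (hfin : (spectrum ℂ g).Finite) :
    ∑ l ∈ hfin.toFinset, sp g l = 1 := by
  have h1 : ∑ l ∈ hfin.toFinset, sp g l
      = cfc (fun z : ℂ => ∑ l ∈ hfin.toFinset, if z = l then (1 : ℂ) else 0) g := by
    have := cfc_sum (fun (l : ℂ) (z : ℂ) => if z = l then (1 : ℂ) else 0) g hfin.toFinset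
      (fun i _ => hfin.continuousOn _)
    rw [show (fun z : ℂ => ∑ l ∈ hfin.toFinset, if z = l then (1 : ℂ) else 0)
      = ∑ l ∈ hfin.toFinset, (fun z : ℂ => if z = l then (1 : ℂ) else 0) from by
        ext z; simp only [Finset.sum_apply], this]
    rfl
  rw [h1, ← cfc_const_one ℂ g]
  apply cfc_congr
  intro z hz
  simp [hz]

theorem sp_comm (g : ℋ →L[ℂ] ℋ) (hg : IsStarNormal g) (hfin : (spectrum ℂ g).Finite) (l : ℂ) :
    g * sp g l = l • sp g l ∧ sp g l * g = l • sp g l := by
  have h1 : g * sp g l = l • sp g l := by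
    have e1 : g * sp g l = cfc (fun z : ℂ => z * (if z = l then (1 : ℂ) else 0)) g := by
      conv_lhs => rw [← cfc_id' ℂ g]
      rw [cfc_id' ℂ g]
      rw [sp]
      nth_rewrite 1 [← cfc_id' ℂ g]
      rw [← cfc_mul _ _ g (hfin.continuousOn _) (hfin.continuousOn _)]
    have e2 : l • sp g l = cfc (fun z : ℂ => l * (if z = l then (1 : ℂ) else 0)) g := by
      rw [sp, ← cfc_const_mul l _ g (hfin.continuousOn _)]
    rw [e1, e2]
    congr 1
    ext z
    by_cases h : z = l <;> simp [h]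
  refine ⟨h1, ?_⟩
  have h2 : sp g l * g = g * sp g l := by
    have := cfc_commute_cfc (fun z : ℂ => if z = l then (1 : ℂ) else 0) (fun z : ℂ => z) g
    rw [cfc_id' ℂ g] at this
    exact this
  rw [h2, h1]

theorem sp_poly (g : ℋ →L[ℂ] ℋ) (hg : IsStarNormal g) (hfin : (spectrum ℂ g).Finite) (l : ℂ) :
    ∃ q : Polynomial ℂ, sp g l = Polynomial.aeval g q := by
  refine ⟨Lagrange.interpolate hfin.toFinset id (fun z => if z = l then (1 : ℂ) else 0), ?_⟩
  rw [← cfc_polynomial _ g, sp]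
  apply cfc_congr
  intro z hz
  have := Lagrange.eval_interpolate_at_node (s := hfin.toFinset) (v := id)
    (fun z => if z = l then (1 : ℂ) else 0) (Set.injOn_id _) (i := z) (by simpa using hz)
  exact this.symm

end Pool.Agent.Helper172.WvN
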