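import Mathlib
import Pool.Agent.Helper172.WvN.Spec
set_option autoImplicit false
set_option linter.all false
open Complex Filter Topology
open scoped InnerProductSpace NNReal

namespace Pool.Agent.Helper172.WvN

variable {ℋ : Type*} [NormedAddCommGroup ℋ] [InnerProductSpace ℂ ℋ] [CompleteSpace ℋ]
variable {R S G : ℋ →L[ℂ] ℋ} {w : ℋ}

/-- the ideal `A ⊗ K`, in terms of the block shift -/
def JR (R : ℋ →L[ℂ] ℋ) : Set (ℋ →L[ℂ] ℋ) :=
  {T | Tendsto (fun n : ℕ => star R ^ n * T) atTop (𝓝 0) ∧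
       Tendsto (fun n : ℕ => star R ^ n * star T) atTop (𝓝 0)}

/-- the multiplier algebra -/
def MR (R : ℋ →L[ℂ] ℋ) : Set (ℋ →L[ℂ] ℋ) :=
  {T | ∀ T' ∈ JR R, T * T' ∈ JR R ∧ T' * T ∈ JR R}

theorem JR_star {T : ℋ →L[ℂ] ℋ} (h : T ∈ JR R) : star T ∈ JR R := by
  refine ⟨h.2, ?_⟩
  rw [star_star]; exact h.1

theorem JR_add {T T' : ℋ →L[ℂ] ℋ} (h : T ∈ JR R) (h' : T' ∈ JR R) : T + T' ∈ JR R := by
  constructor
  · have := h.1.add h'.1
    simpa [mul_add] using this
  · have := h.2.add h'.2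
    simpa [mul_add] using this

theorem JR_zero : (0 : ℋ →L[ℂ] ℋ) ∈ JR R := by
  constructor <;> simp

theorem JR_sum {ι : Type*} (s : Finset ι) (f : ι → ℋ →L[ℂ] ℋ) (h : ∀ i ∈ s, f i ∈ JR R) :
    ∑ i ∈ s, f i ∈ JR R := by
  classical
  induction s using Finset.induction_on with
  | empty => simpa using JR_zero
  | insert a s ha ih =>
    rw [Finset.sum_insert ha]
    exact JR_add (h a (Finset.mem_insert_self _ _))
      (ih (fun i hi => h i (Finset.mem_insert_of_mem hi)))

theorem JR_smul {T : ℋ →L[ℂ] ℋ} (c : ℂ) (h : T ∈ JR R) : c • T ∈ JR R := by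
  constructor
  · have := h.1.const_smul c
    simpa [mul_smul_comm] using this
  · have := h.2.const_smul (star c)
    simpa [mul_smul_comm] using this

/-- `MR` as a subalgebra -/
def MA (R : ℋ →L[ℂ] ℋ) : Subalgebra ℂ (ℋ →L[ℂ] ℋ) where
  carrier := MR R
  mul_mem' := by
    intro a b ha hb T' hT'
    refine ⟨?_, ?_⟩
    · rw [mul_assoc]; exact (ha _ (hb _ hT').1).1
    · rw [← mul_assoc]; exact (hb _ (ha _ hT').2).2
  add_mem' := by
    intro a b ha hb T' hT'
    refine ⟨?_, ?_⟩
    · rw [add_mul]; exact JR_add (ha _ hT').1 (hb _ hT').1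
    · rw [mul_add]; exact JR_add (ha _ hT').2 (hb _ hT').2
  algebraMap_mem' := by
    intro c T' hT'
    rw [Algebra.algebraMap_eq_smul_one]
    refine ⟨?_, ?_⟩
    · rw [smul_mul_assoc, one_mul]; exact JR_smul c hT'
    · rw [mul_smul_comm, mul_one]; exact JR_smul c hT'

theorem mem_MA {T : ℋ →L[ℂ] ℋ} : T ∈ MA R ↔ T ∈ MR R := Iff.rfl

theorem aeval_mem {g : ℋ →L[ℂ] ℋ} (hg : g ∈ MR R) (q : Polynomial ℂ) :
    Polynomial.aeval g q ∈ MR R := by
  rw [← mem_MA]
  have h1 : Polynomial.aeval g q ∈ Algebra.adjoin ℂ {g} := Polynomial.aeval_mem_adjoin_singleton ℂ g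
  exact (Algebra.adjoin_le (by simpa using (mem_MA.2 hg))) h1

theorem R'pow_R_pow (r : Rel R (star R) S (star S) G) (n : ℕ) : star R ^ n * R ^ n = 1 := by
  induction n with
  | zero => simp
  | succ m ih => rw [pow_succ (star R), pow_succ' R, mul_assoc, ← mul_assoc (star R), r.RR, one_mul, ih]

theorem eventually_zero_mem {T : ℋ →L[ℂ] ℋ} (h : star T = T) (n : ℕ)
    (h0 : ∀ k, n ≤ k → star R ^ k * T = 0) : T ∈ JR R := by
  have h1 : Tendsto (fun k : ℕ => star R ^ k * T) atTop (𝓝 0) := by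
    apply tendsto_const_nhds.congr'
    filter_upwards [eventually_ge_atTop n] with k hk
    exact (h0 k hk).symm
  refine ⟨h1, ?_⟩
  rw [h]; exact h1

/-- the truncation to the first `n` blocks -/
noncomputable def en (R : ℋ →L[ℂ] ℋ) (n : ℕ) : ℋ →L[ℂ] ℋ := 1 - R ^ n * star R ^ n

theorem en_star (n : ℕ) : star (en R n) = en R n := by
  simp only [en, star_sub, star_one, star_mul, star_pow, star_star]

theorem en_mem (r : Rel R (star R) S (star S) G) (n : ℕ) : en R n ∈ JR R := by
  refine eventually_zero_mem (en_star n) n ?_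
  intro k hk
  obtain ⟨j, rfl⟩ := Nat.exists_eq_add_of_le' hk
  rw [en, mul_sub, mul_one, pow_add, mul_assoc, ← mul_assoc (star R ^ n) (R ^ n), R'pow_R_pow r,
    one_mul, sub_self]

theorem E_mem (r : Rel R (star R) S (star S) G) : cE R (star R) ∈ JR R := by
  have := en_mem r 1
  simpa [en, cE] using this

theorem proj_le {T : ℋ →L[ℂ] ℋ} (h1 : star T = T) (h2 : T * T = T) (x : ℋ) : ‖T x‖ ≤ ‖x‖ := by
  have h3 := proj_norm h1 h2 x
  have h4 : (⟪x, T x⟫_ℂ).re ≤ ‖x‖ * ‖T x‖ :=
    (Complex.re_le_norm _).trans (norm_inner_le_norm _ _)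
  rw [h3] at h4
  rcases (norm_nonneg (T x)).eq_or_lt with h5 | h5
  · rw [← h5]; exact norm_nonneg _
  · nlinarith

theorem Rpow_norm (r : Rel R (star R) S (star S) G) (n : ℕ) (x : ℋ) : ‖(R ^ n) x‖ = ‖x‖ :=
  iso_norm (by rw [star_pow]; exact R'pow_R_pow r n) x

theorem cut (s : Sys R S G w) {g : ℋ →L[ℂ] ℋ} (hg : star g = g) (hgM : g ∈ MR R)
    (hfin : (spectrum ℂ g).Finite) {δ : ℝ} (hδ : 0 < δ) :
    ∃ p : ℋ →L[ℂ] ℋ, star p = p ∧ p * p = p ∧ p * g = g * p ∧
      (∀ x, ‖cE R (star R) (x - p x)‖ ≤ δ * ‖x‖) ∧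
      ∃ m, 3 ≤ m ∧ ∀ x, ‖(star R ^ m) (p x)‖ ≤ δ * ‖x‖ := by
  have r := s.rel
  have hgn : IsStarNormal g := (show IsSelfAdjoint g from hg).isStarNormal
  set F := hfin.toFinset with hF
  have hPM : ∀ l, sp g l ∈ MR R := by
    intro l
    obtain ⟨q, hq⟩ := sp_poly g hgn hfin l
    rw [hq]; exact aeval_mem hgM q
  -- choice of `n`
  set δ' : ℝ := δ / (2 * (F.card + 1)) with hδ'
  have hδ'0 : 0 < δ' := by positivity
  obtain ⟨n, hn⟩ : ∃ n : ℕ, ∀ l ∈ F, ‖star R ^ n * (sp g l * cE R (star R))‖ ≤ δ' := by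
    have h1 : ∀ l ∈ F, ∀ᶠ n : ℕ in atTop, ‖star R ^ n * (sp g l * cE R (star R))‖ ≤ δ' := by
      intro l _
      have h2 := ((hPM l) _ (E_mem r)).1.1
      have h3 := h2.norm
      rw [norm_zero] at h3
      exact h3.eventually_le_const hδ'0
    exact (((Finset.eventually_all F).2 h1)).exists
  set Z : ℋ →L[ℂ] ℋ := ∑ l ∈ F, sp g l * en R n * sp g l with hZ
  have hZs : star Z = Z := by
    rw [hZ, star_sum]
    apply Finset.sum_congr rfl
    intro l _
    rw [star_mul, star_mul, sp_star, en_star, mul_assoc]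
  have hgZ : g * Z = Z * g := by
    rw [hZ, Finset.mul_sum, Finset.sum_mul]
    apply Finset.sum_congr rfl
    intro l _
    rw [← mul_assoc, ← mul_assoc, (sp_comm g hgn hfin l).1, mul_assoc (sp g l * en R n),
      (sp_comm g hgn hfin l).2]
    simp only [smul_mul_assoc, mul_smul_comm]
  have hZJ : Z ∈ JR R := by
    apply JR_sum
    intro l _
    exact ((hPM l) _ ((hPM l) _ (en_mem r n)).1).2
  -- `(1 - Z) E` is small
  have hZE : ∀ x, ‖(1 - Z) (cE R (star R) x)‖ ≤ (δ / 2) * ‖x‖ := by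
    intro x
    have e1 : (1 - Z) * cE R (star R)
        = ∑ l ∈ F, sp g l * (R ^ n * (star R ^ n * (sp g l * cE R (star R)))) := by
      have e2 : cE R (star R) = ∑ l ∈ F, sp g l * (sp g l * cE R (star R)) := by
        simp only [← mul_assoc, sp_mul g hfin]
        rw [← Finset.sum_mul, sp_sum g hgn hfin, one_mul]
      rw [sub_mul, one_mul]
      conv_lhs => rw [e2]
      rw [hZ, Finset.sum_mul, ← Finset.sum_sub_distrib]
      apply Finset.sum_congr rfl
      intro l hl
      have e3 : ∑ l ∈ F, sp g l * (sp g l * cE R (star R)) = cE R (star R) := e2.symm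
      rw [e3]
      simp only [en, mul_sub, sub_mul, mul_one, mul_assoc, sub_sub_cancel]
    have e4 := app e1 x
    simp only [ContinuousLinearMap.mul_apply] at e4
    rw [e4, ContinuousLinearMap.sum_apply]
    calc ‖∑ l ∈ F, (sp g l * (R ^ n * (star R ^ n * (sp g l * cE R (star R))))) x‖
        ≤ ∑ l ∈ F, ‖(sp g l * (R ^ n * (star R ^ n * (sp g l * cE R (star R))))) x‖ :=
          norm_sum_le _ _
      _ ≤ ∑ l ∈ F, δ' * ‖x‖ := by
          apply Finset.sum_le_sum
          intro l hl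
          rw [ContinuousLinearMap.mul_apply, ContinuousLinearMap.mul_apply]
          refine (proj_le (sp_star g l) (sp_mul g hfin l) _).trans ?_
          rw [Rpow_norm r]
          refine (ContinuousLinearMap.le_opNorm _ _).trans ?_
          gcongr
          exact hn l hl
      _ = (F.card * δ') * ‖x‖ := by rw [Finset.sum_const, nsmul_eq_mul, mul_assoc]
      _ ≤ (δ / 2) * ‖x‖ := by
          gcongr
          rw [hδ', mul_div_assoc', div_le_div_iff₀ (by positivity) (by norm_num)]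
          nlinarith [hδ.le, (Nat.cast_nonneg F.card : (0:ℝ) ≤ F.card)]
  obtain ⟨p, hp1, hp2, hpc, hpu, hpl⟩ := spectral_cut Z hZs
  have hpg : p * g = g * p := (hpc g hg hgZ).symm
  have hpZ : p * Z = Z * p := (hpc Z hZs rfl).symm
  have hpZx : ∀ x, p (Z x) = Z (p x) := fun x => by
    have := app hpZ x
    simpa using this
  have hppx : ∀ x, p (p x) = p x := fun x => by
    have := app hp2 x
    simpa using this
  refine ⟨p, hp1, hp2, hpg, ?_, ?_⟩
  · -- first smallness
    have h1 : ‖(1 - p) * cE R (star R)‖ ≤ δ := by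
      apply ContinuousLinearMap.opNorm_le_bound _ hδ.le
      intro x
      simp only [ContinuousLinearMap.mul_apply, ContinuousLinearMap.sub_apply,
        ContinuousLinearMap.one_apply]
      set y := cE R (star R) x with hy
      set u := y - p y with hu
      have hpu0 : p u = 0 := by rw [hu, map_sub, hppx, sub_self]
      have h2 := hpl u hpu0
      have h3 : (1/2) * ‖u‖ ^ 2 ≤ ‖u‖ * ‖u - Z u‖ := by
        have h4 : (⟪u, u - Z u⟫_ℂ).re ≤ ‖u‖ * ‖u - Z u‖ :=
          (Complex.re_le_norm _).trans (norm_inner_le_norm _ _)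
        rw [inner_sub_right, Complex.sub_re, inner_self_re'] at h4
        linarith
      have h5 : u - Z u = (y - Z y) - p (y - Z y) := by
        rw [hu, map_sub, map_sub, hpZx]
        abel
      have h6 : ‖u - Z u‖ ≤ ‖y - Z y‖ := by
        rw [h5]
        have h7 : star (1 - p) = 1 - p := by rw [star_sub, star_one, hp1]
        have h8 : (1 - p) * (1 - p) = 1 - p := by
          simp only [mul_sub, sub_mul, mul_one, one_mul, hp2]; abel
        have := proj_le h7 h8 (y - Z y)
        simpa using this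
      have h9 : ‖y - Z y‖ ≤ (δ / 2) * ‖x‖ := by
        have := hZE x
        simpa using this
      rcases (norm_nonneg u).eq_or_lt with h10 | h10
      · rw [← h10]; positivity
      · nlinarith
    intro x
    have h2 : ‖cE R (star R) * (1 - p)‖ ≤ δ := by
      rw [← norm_star, star_mul, star_sub, star_one, hp1, star_E]
      exact h1
    have h3 := ContinuousLinearMap.le_of_opNorm_le _ h2 x
    simpa using h3
  · -- second smallness
    have h1 : ∀ x, ‖p x‖ ≤ 2 * ‖Z x‖ := by
      intro x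
      have h2 := hpu (p x) (hppx x)
      have h3 : (⟪p x, Z (p x)⟫_ℂ).re ≤ ‖p x‖ * ‖Z (p x)‖ :=
        (Complex.re_le_norm _).trans (norm_inner_le_norm _ _)
      have h4 : ‖Z (p x)‖ ≤ ‖Z x‖ := by
        rw [← hpZx]; exact proj_le hp1 hp2 _
      rcases (norm_nonneg (p x)).eq_or_lt with h5 | h5
      · rw [← h5]; positivity
      · nlinarith
    have h2 := hZJ.1.norm
    rw [norm_zero] at h2
    have h3 := h2.eventually_le_const (show 0 < δ / 2 by positivity)
    obtain ⟨m, hm, hm3⟩ := (h3.and (eventually_ge_atTop 3)).exists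
    refine ⟨m, hm3, ?_⟩
    have h4 : ‖p * R ^ m‖ ≤ δ := by
      apply ContinuousLinearMap.opNorm_le_bound _ hδ.le
      intro x
      rw [ContinuousLinearMap.mul_apply]
      have h5 : ‖Z * R ^ m‖ ≤ δ / 2 := by
        rw [← norm_star, star_mul, hZs, star_pow]
        exact hm
      have h6 := ContinuousLinearMap.le_of_opNorm_le _ h5 x
      rw [ContinuousLinearMap.mul_apply] at h6
      have h7 := h1 ((R ^ m) x)
      linarith
    intro x
    have h5 : ‖star R ^ m * p‖ ≤ δ := by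
      rw [← norm_star, star_mul, hp1, star_pow, star_star]
      exact h4
    exact ContinuousLinearMap.le_of_opNorm_le _ h5 x

/-- No self-adjoint element of `MR` with finite spectrum is close to `h`. -/
theorem main_abstract (s : Sys R S G w) {g : ℋ →L[ℂ] ℋ} (hg : star g = g) (hgM : g ∈ MR R)
    (hfin : (spectrum ℂ g).Finite) : 1/200 < ‖ch R (star R) S (star S) G - g‖ := by
  by_contra hcon
  push Not at hcon
  obtain ⟨p, hp1, hp2, hpg, hδ1, m, hm, hδ2⟩ := cut s hg hgM hfin (δ := 1/100) (by norm_num)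
  refine obstruction s hp1 hp2 ?_ hδ1 m hm hδ2
  intro x
  set h := ch R (star R) S (star S) G with hh
  have e1 : p * h - h * p = p * (h - g) - (h - g) * p := by
    rw [mul_sub, sub_mul, hpg]; abel
  have e2 := app e1 x
  rw [e2]
  simp only [ContinuousLinearMap.sub_apply (p * (h - g)), ContinuousLinearMap.mul_apply]
  have e3 : ‖p ((h - g) x)‖ ≤ (1/200) * ‖x‖ :=
    (proj_le hp1 hp2 _).trans (ContinuousLinearMap.le_of_opNorm_le _ hcon x)
  have e4 : ‖(h - g) (p x)‖ ≤ (1/200) * ‖x‖ := by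
    refine (ContinuousLinearMap.le_of_opNorm_le _ hcon (p x)).trans ?_
    gcongr
    exact proj_le hp1 hp2 _
  have e5 := norm_sub_le (p ((h - g) x)) ((h - g) (p x))
  linarith

end Pool.Agent.Helper172.WvN
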