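import Mathlib
import Pool.Agent.Helper172.WvN.Cut
set_option autoImplicit false
set_option linter.all false
open Complex Filter Topology
open scoped InnerProductSpace NNReal ENNReal

namespace Pool.Agent.Helper172.WvN

section MRlemmas
variable {ℋ : Type*} [NormedAddCommGroup ℋ] [InnerProductSpace ℂ ℋ] [CompleteSpace ℋ]
variable {R S G : ℋ →L[ℂ] ℋ} {w : ℋ}

theorem JR_mul_right {T T' : ℋ →L[ℂ] ℋ}
    (h : Tendsto (fun n : ℕ => star R ^ n * T) atTop (𝓝 0)) :
    Tendsto (fun n : ℕ => star R ^ n * (T * T')) atTop (𝓝 0) := by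
  have := h.mul_const T'
  simpa [mul_assoc] using this

theorem MR_star {T : ℋ →L[ℂ] ℋ} (h : T ∈ MR R) : star T ∈ MR R := by
  intro T' hT'
  have h1 := h (star T') (JR_star hT')
  refine ⟨?_, ?_⟩
  · have := JR_star h1.2
    rwa [star_mul, star_star] at this
  · have := JR_star h1.1
    rwa [star_mul, star_star] at this

/-- operators commuting up to sign with `star R` -/
theorem MR_of_comm {T : ℋ →L[ℂ] ℋ} (c : ℂ)
    (h1 : star R * T = c • (T * star R)) (h2 : star R * star T = c • (star T * star R))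
    (hc : ‖c‖ ≤ 1) : T ∈ MR R := by
  have key : ∀ U : ℋ →L[ℂ] ℋ, star R * U = c • (U * star R) → ∀ T' : ℋ →L[ℂ] ℋ,
      Tendsto (fun n : ℕ => star R ^ n * T') atTop (𝓝 0) →
      Tendsto (fun n : ℕ => star R ^ n * (U * T')) atTop (𝓝 0) := by
    intro U hU T' hT'
    have e : ∀ n : ℕ, star R ^ n * (U * T') = c ^ n • (U * (star R ^ n * T')) := by
      intro n
      induction n with
      | zero => simp
      | succ n ih =>
        rw [pow_succ' (star R), mul_assoc, ih, mul_smul_comm, ← mul_assoc (star R) U, hU,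
          smul_mul_assoc, smul_smul, mul_assoc U, ← mul_assoc (star R), pow_succ c]
    rw [tendsto_zero_iff_norm_tendsto_zero] at hT' ⊢
    refine squeeze_zero (fun n => norm_nonneg _) (g := fun n => ‖U‖ * ‖star R ^ n * T'‖) ?_ ?_
    · intro n
      rw [e, norm_smul, norm_pow]
      calc ‖c‖ ^ n * ‖U * (star R ^ n * T')‖ ≤ 1 * ‖U * (star R ^ n * T')‖ := by
            gcongr; exact pow_le_one₀ (norm_nonneg _) hc
        _ ≤ ‖U‖ * ‖star R ^ n * T'‖ := by rw [one_mul]; exact norm_mul_le _ _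
    · simpa using hT'.const_mul ‖U‖
  intro T' hT'
  refine ⟨⟨key T h1 T' hT'.1, ?_⟩, ⟨JR_mul_right hT'.1, ?_⟩⟩
  · rw [star_mul]; exact JR_mul_right hT'.2
  · rw [star_mul]; exact key (star T) h2 _ hT'.2

theorem MR_R (r : Rel R (star R) S (star S) G) : R ∈ MR R := by
  intro T' hT'
  refine ⟨⟨?_, ?_⟩, ⟨JR_mul_right hT'.1, ?_⟩⟩
  · rw [← tendsto_add_atTop_iff_nat 1]
    have : (fun n : ℕ => star R ^ (n + 1) * (R * T')) = fun n : ℕ => star R ^ n * T' := by
      ext1 n
      rw [pow_succ, mul_assoc, ← mul_assoc (star R) R, r.RR, one_mul]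
    rw [this]; exact hT'.1
  · rw [star_mul]; exact JR_mul_right hT'.2
  · rw [star_mul]
    have : (fun n : ℕ => star R ^ n * (star R * star T')) = fun n : ℕ => star R ^ (n + 1) * star T' := by
      ext1 n
      rw [pow_succ, mul_assoc]
    rw [this]
    exact (tendsto_add_atTop_iff_nat 1).2 hT'.2

theorem h_mem (s : Sys R S G w) : ch R (star R) S (star S) G ∈ MR R := by
  have r := s.rel
  have hR : R ∈ MA R := MR_R r
  have hR' : star R ∈ MA R := MR_star (MR_R r)
  have hS : S ∈ MA R := MR_of_comm 1 (by rw [one_smul, r.R'S]) (by rw [one_smul, r.R'S']) (by simp)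
  have hS' : star S ∈ MA R := MR_star hS
  have hG : G ∈ MA R := MR_of_comm (-1) (by rw [neg_one_smul, r.GR'])
    (by rw [s.Gs, neg_one_smul, r.GR']) (by simp)
  have h1 : (1 : ℋ →L[ℂ] ℋ) ∈ MA R := one_mem _
  have hC : cC S (star S) ∈ MA R := (MA R).smul_mem (add_mem hS hS') _
  have hX : cX S (star S) ∈ MA R := (MA R).smul_mem (sub_mem hS hS') _
  have hA : cA S (star S) G ∈ MA R := (MA R).smul_mem (sub_mem h1 (mul_mem hG hX)) _
  exact add_mem (add_mem (mul_mem hG hC) (mul_mem hR hA)) (mul_mem hA hR')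

end MRlemmas

section shift
variable {E : Type*} [NormedAddCommGroup E] [InnerProductSpace ℂ E] [CompleteSpace E]

theorem two_toReal_pos : 0 < (2 : ℝ≥0∞).toReal := by norm_num

theorem mem2_iff {f : ℕ → E} : Memℓp f 2 ↔ Summable fun i => ‖f i‖ ^ 2 := by
  rw [memℓp_gen_iff two_toReal_pos]
  simp

theorem norm2 (x : lp (fun _ : ℕ => E) 2) : ‖x‖ ^ 2 = ∑' i, ‖x i‖ ^ 2 := by
  have := lp.norm_rpow_eq_tsum two_toReal_pos x
  simpa using this

/-- right shift of sequences -/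
def rsf (x : ℕ → E) : ℕ → E
  | 0 => 0
  | n + 1 => x n

theorem rsf_mem {x : ℕ → E} (hx : Memℓp x 2) : Memℓp (rsf x) 2 := by
  rw [mem2_iff] at hx ⊢
  rw [← summable_nat_add_iff 1]
  exact hx

theorem lsf_mem {x : ℕ → E} (hx : Memℓp x 2) : Memℓp (fun n => x (n + 1)) 2 := by
  rw [mem2_iff] at hx ⊢
  exact (summable_nat_add_iff 1).2 hx

variable (E) in
/-- right shift on `ℓ²(ℕ, E)` -/
noncomputable def rsh : lp (fun _ : ℕ => E) 2 →L[ℂ] lp (fun _ : ℕ => E) 2 :=
  LinearMap.mkContinuous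
    { toFun := fun x => ⟨rsf x, rsf_mem x.2⟩
      map_add' := by
        intro x y
        ext n
        rcases n with _ | n
        · show (0 : E) = 0 + 0
          simp
        · rfl
      map_smul' := by
        intro c x
        ext n
        rcases n with _ | n
        · show (0 : E) = c • (0 : E)
          simp
        · rfl } 1 (by
      intro x
      have h1 : ‖(⟨rsf x, rsf_mem x.2⟩ : lp (fun _ : ℕ => E) 2)‖ ^ 2 = ‖x‖ ^ 2 := by
        rw [norm2, norm2]
        have hs : Summable fun i => ‖(rsf x i : E)‖ ^ 2 := mem2_iff.1 (rsf_mem x.2)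
        show ∑' i, ‖(rsf x i : E)‖ ^ 2 = _
        rw [hs.tsum_eq_zero_add]
        simp [rsf]
      rw [one_mul]
      exact le_of_eq ((sq_eq_sq₀ (norm_nonneg _) (norm_nonneg _)).1 h1))

variable (E) in
/-- left shift on `ℓ²(ℕ, E)` -/
noncomputable def lsh : lp (fun _ : ℕ => E) 2 →L[ℂ] lp (fun _ : ℕ => E) 2 :=
  LinearMap.mkContinuous
    { toFun := fun x => ⟨fun n => x (n + 1), lsf_mem x.2⟩
      map_add' := by intro x y; rfl
      map_smul' := by intro c x; rfl } 1 (by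
      intro x
      have h1 : ‖(⟨fun n => x (n + 1), lsf_mem x.2⟩ : lp (fun _ : ℕ => E) 2)‖ ^ 2 ≤ ‖x‖ ^ 2 := by
        rw [norm2, norm2]
        have hs : Summable fun i => ‖x i‖ ^ 2 := mem2_iff.1 x.2
        rw [hs.tsum_eq_zero_add]
        show ∑' i, ‖x (i + 1)‖ ^ 2 ≤ _
        have : 0 ≤ ‖x 0‖ ^ 2 := by positivity
        linarith
      rw [one_mul]
      exact (sq_le_sq₀ (norm_nonneg _) (norm_nonneg _)).1 h1)

theorem rsh_zero (x : lp (fun _ : ℕ => E) 2) : (rsh E x) 0 = 0 := rfl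
theorem rsh_succ (x : lp (fun _ : ℕ => E) 2) (n : ℕ) : (rsh E x) (n + 1) = x n := rfl
theorem lsh_apply (x : lp (fun _ : ℕ => E) 2) (n : ℕ) : (lsh E x) n = x (n + 1) := rfl

theorem star_rsh : star (rsh E) = lsh E := by
  rw [ContinuousLinearMap.star_eq_adjoint, eq_comm, ContinuousLinearMap.eq_adjoint_iff]
  intro x y
  rw [lp.inner_eq_tsum, lp.inner_eq_tsum]
  have hs := lp.summable_inner (𝕜 := ℂ) x (rsh E y)
  rw [hs.tsum_eq_zero_add]
  rw [rsh_zero, inner_zero_right, zero_add]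
  rfl

/-- diagonal operators on `ℓ²(ℕ, E)` -/
theorem dia_mem (d : ℕ → E →L[ℂ] E) {c : ℝ} (hd : ∀ n, ‖d n‖ ≤ c) {x : ℕ → E} (hx : Memℓp x 2) :
    Memℓp (fun n => d n (x n)) 2 := by
  rw [mem2_iff] at hx ⊢
  refine Summable.of_nonneg_of_le (fun n => by positivity) (f := fun n => c ^ 2 * ‖x n‖ ^ 2) ?_
    (hx.mul_left _)
  intro n
  rw [← mul_pow]
  have h1 := (d n).le_opNorm (x n)
  have h2 : ‖d n‖ * ‖x n‖ ≤ c * ‖x n‖ := by gcongr; exact hd n
  gcongr
  exact h1.trans h2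

noncomputable def dia (d : ℕ → E →L[ℂ] E) {c : ℝ} (hd : ∀ n, ‖d n‖ ≤ c) :
    lp (fun _ : ℕ => E) 2 →L[ℂ] lp (fun _ : ℕ => E) 2 :=
  LinearMap.mkContinuous
    { toFun := fun x => ⟨fun n => d n (x n), dia_mem d hd x.2⟩
      map_add' := by
        intro x y
        ext n
        show d n (x n + y n) = d n (x n) + d n (y n)
        rw [map_add]
      map_smul' := by
        intro a x
        ext n
        show d n (a • x n) = a • d n (x n)
        rw [map_smul] } c (by
      intro x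
      have hc : 0 ≤ c := (norm_nonneg _).trans (hd 0)
      have h1 : ‖(⟨fun n => d n (x n), dia_mem d hd x.2⟩ : lp (fun _ : ℕ => E) 2)‖ ^ 2
          ≤ (c * ‖x‖) ^ 2 := by
        rw [norm2, mul_pow, norm2, ← tsum_mul_left]
        have hs : Summable fun i => ‖x i‖ ^ 2 := mem2_iff.1 x.2
        refine Summable.tsum_le_tsum ?_ (mem2_iff.1 (dia_mem d hd x.2)) (hs.mul_left _)
        intro n
        rw [← mul_pow]
        have h1 := (d n).le_opNorm (x n)
        have h2 : ‖d n‖ * ‖x n‖ ≤ c * ‖x n‖ := by gcongr; exact hd n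
        have h3 : ‖d n (x n)‖ ≤ c * ‖x n‖ := h1.trans h2
        show ‖d n (x n)‖ ^ 2 ≤ _
        gcongr
      exact (sq_le_sq₀ (norm_nonneg _) (by positivity)).1 h1)

theorem dia_apply (d : ℕ → E →L[ℂ] E) {c : ℝ} (hd : ∀ n, ‖d n‖ ≤ c)
    (x : lp (fun _ : ℕ => E) 2) (n : ℕ) : (dia d hd x) n = d n (x n) := rfl

theorem star_dia (d d' : ℕ → E →L[ℂ] E) {c : ℝ} (hd : ∀ n, ‖d n‖ ≤ c) (hd' : ∀ n, ‖d' n‖ ≤ c)
    (h : ∀ n, d' n = star (d n)) : star (dia d hd) = dia d' hd' := by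
  rw [ContinuousLinearMap.star_eq_adjoint, eq_comm, ContinuousLinearMap.eq_adjoint_iff]
  intro x y
  rw [lp.inner_eq_tsum, lp.inner_eq_tsum]
  congr 1
  ext n
  rw [dia_apply, dia_apply, h, star_inner_left]

end shift

end Pool.Agent.Helper172.WvN
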